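import Mathlib

set_option autoImplicit false

open Finset

namespace Pool.Agent.Lib.DH7

variable {I X : Type*}

/-- A set is dominant if every ordinary point lies below all of it in one of the orders. -/
def Dom (u : I → X → ℕ) (s : I → X) (R : Finset X) : Prop :=
  ∀ y, y ∉ Set.range s → ∃ i, ∀ x ∈ R, u i y ≤ u i x

/-- Linear orders with slack points. -/
structure Slack (u : I → X → ℕ) (s : I → X) : Prop where
  inj : ∀ i, Function.Injective (u i)
  low : ∀ i x, u i (s i) ≤ u i x
  high : ∀ i k y, k ≠ i → y ∉ Set.range s → u k y < u k (s i)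
  sinj : Function.Injective s

theorem exists_min (u : I → X → ℕ) {S : Finset X} (hS : S.Nonempty) :
    ∃ m : I → X, (∀ i, m i ∈ S) ∧ ∀ i, ∀ x ∈ S, u i (m i) ≤ u i x := by
  choose m h1 h2 using fun i => exists_min_image S (u i) hS
  exact ⟨m, h1, h2⟩

theorem Slack.surj {u : I → X → ℕ} {s : I → X} (h : Slack u s) {S : Finset X} (hS : Dom u s S)
    {m : I → X} (h1 : ∀ i, m i ∈ S) (h2 : ∀ i, ∀ x ∈ S, u i (m i) ≤ u i x) {x : X} (hx : x ∈ S) :
    ∃ i, m i = x := by
  by_cases h3 : x ∈ Set.range s
  · obtain ⟨j, rfl⟩ := h3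
    exact ⟨j, h.inj j (le_antisymm (h2 j _ hx) (h.low j _))⟩
  · obtain ⟨i, hi⟩ := hS x h3
    exact ⟨i, h.inj i (le_antisymm (h2 i _ hx) (hi _ (h1 i)))⟩

open Classical in
theorem Slack.door [Fintype I] [Fintype X] {u : I → X → ℕ} {s : I → X} (h : Slack u s)
    {S : Finset X} (hS : Dom u s S) (hc : S.card + 1 = Fintype.card I) {x0 : X} (hx0 : x0 ∈ S)
    (hx0' : x0 ∉ Set.range s) :
    (univ.filter fun z => z ∉ S ∧ Dom u s (insert z S)).card = 2 := by
  obtain ⟨m, h1, h2⟩ := exists_min u ⟨x0, hx0⟩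
  obtain ⟨a, -, b, -, hab, hm⟩ := exists_ne_map_eq_of_card_lt_of_maps_to
    (s := (univ : Finset I)) (t := S) (f := m) (by rw [card_univ]; omega) fun i _ => h1 i
  have key : ∀ a b, a ≠ b → m a = m b → ∃ z, (∀ k, k ≠ a → u k (m k) < u k z) ∧ z ∉ S ∧
      Dom u s (insert z S) ∧ ∀ z', (∀ k, k ≠ a → u k (m k) < u k z') → Dom u s (insert z' S) →
        z' = z := by
    intro a b hab hm
    have hne : (univ.filter fun y => ∀ k, k ≠ a → u k (m k) < u k y).Nonempty := by
      refine ⟨s a, mem_filter.2 ⟨mem_univ _, fun k hk => ?_⟩⟩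
      by_cases h3 : m k ∈ Set.range s
      · obtain ⟨j, hj⟩ := h3
        by_cases h4 : k = j
        · subst h4
          rw [← hj]
          exact lt_of_le_of_ne (h.low k _) fun e => hk (h.sinj (h.inj k e))
        · have h5 := h.high j k x0 h4 hx0'
          have h6 := h2 k x0 hx0
          rw [hj] at h5
          omega
      · exact h.high a k _ hk h3
    obtain ⟨z, hz, hz'⟩ := exists_max_image _ (u a) hne
    have hz1 := (mem_filter.1 hz).2
    refine ⟨z, hz1, fun hzS => ?_, fun y hy => ?_, fun z' h3 h4 => ?_⟩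
    · obtain ⟨i, hi⟩ := h.surj hS h1 h2 hzS
      by_cases h5 : i = a
      · subst h5
        have := hz1 b hab.symm
        rw [← hm, hi] at this
        omega
      · have := hz1 i h5
        rw [hi] at this
        omega
    · by_cases h5 : ∀ k, k ≠ a → u k (m k) < u k y
      · obtain ⟨i, hi⟩ := hS y hy
        have h6 : i = a := by
          by_contra h6
          have := h5 i h6
          have := hi _ (h1 i)
          omega
        subst h6
        refine ⟨i, fun x hx => ?_⟩
        rcases mem_insert.1 hx with rfl | hx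
        · exact hz' y (mem_filter.2 ⟨mem_univ _, h5⟩)
        · exact hi x hx
      · push Not at h5
        obtain ⟨k, hk, hk'⟩ := h5
        refine ⟨k, fun x hx => ?_⟩
        rcases mem_insert.1 hx with rfl | hx
        · exact hk'.trans (hz1 k hk).le
        · exact hk'.trans (h2 k x hx)
    · refine h.inj a (le_antisymm (hz' z' (mem_filter.2 ⟨mem_univ _, h3⟩)) ?_)
      by_cases h5 : z ∈ Set.range s
      · obtain ⟨j, rfl⟩ := h5
        by_cases h6 : j = a
        · subst h6
          exact h.low _ _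
        · have := hz1 j h6
          have := h.low j (m j)
          omega
      · obtain ⟨i, hi⟩ := h4 z h5
        by_cases h6 : i = a
        · subst h6
          exact hi _ (mem_insert_self _ _)
        · have := hz1 i h6
          have := hi _ (mem_insert_of_mem (h1 i))
          omega
  obtain ⟨za, a1, a2, a3, a4⟩ := key a b hab hm
  obtain ⟨zb, b1, b2, b3, b4⟩ := key b a hab.symm hm.symm
  rw [card_eq_two]
  refine ⟨za, zb, fun e => ?_, ?_⟩
  · subst e
    have h3 : ∀ k, u k (m k) < u k za := fun k => by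
      by_cases hk : k = a
      · exact b1 k (hk ▸ hab)
      · exact a1 k hk
    by_cases h5 : za ∈ Set.range s
    · obtain ⟨j, rfl⟩ := h5
      have := h3 j
      have := h.low j (m j)
      omega
    · obtain ⟨i, hi⟩ := hS za h5
      have := h3 i
      have := hi _ (h1 i)
      omega
  · ext z
    simp only [mem_filter, mem_univ, true_and, mem_insert, mem_singleton]
    refine ⟨fun ⟨hz, hz'⟩ => ?_, ?_⟩
    · obtain ⟨m', h1', h2'⟩ := exists_min u (insert_nonempty z S)
      have hsur : ∀ x ∈ insert z S, ∃ i, m' i = x := fun x hx => h.surj hz' h1' h2' hx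
      have hinj : Function.Injective m' := by
        have h3 : (univ.image m').card = (univ : Finset I).card := by
          rw [card_univ, ← hc, ← card_insert_of_notMem hz]
          congr 1
          ext x
          simp only [mem_image, mem_univ, true_and]
          exact ⟨fun ⟨i, hi⟩ => hi ▸ h1' i, hsur x⟩
        have := card_image_iff.1 h3
        exact fun i j e => this (by simp) (by simp) e
      obtain ⟨i, hi⟩ := hsur z (mem_insert_self _ _)
      have h3 : ∀ k, k ≠ i → m' k = m k := fun k hk => by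
        have h4 : m' k ∈ S := (mem_insert.1 (h1' k)).resolve_left fun e => hk (hinj (e.trans hi.symm))
        exact h.inj k (le_antisymm (h2' k _ (mem_insert_of_mem (h1 k))) (h2 k _ h4))
      have h4 : ∀ k, k ≠ i → u k (m k) < u k z := fun k hk => by
        refine lt_of_le_of_ne (h3 k hk ▸ h2' k z (mem_insert_self _ _)) fun e => hz ?_
        rw [← h.inj k e]
        exact h1 k
      by_cases h5 : i = a
      · exact Or.inl (a4 z (h5 ▸ h4) hz')
      by_cases h6 : i = b
      · exact Or.inr (b4 z (h6 ▸ h4) hz')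
      exact absurd (hinj ((h3 a (Ne.symm h5)).trans (hm.trans (h3 b (Ne.symm h6)).symm))) hab
    · rintro (rfl | rfl)
      · exact ⟨a2, a3⟩
      · exact ⟨b2, b3⟩

/-- Scarf's lemma. -/
theorem Slack.scarf [Fintype I] [Fintype X] [Nonempty I] {u : I → X → ℕ} {s : I → X}
    (h : Slack u s) (hT : ∃ y, y ∉ Set.range s) (c : X → I) (hc : ∀ i, c (s i) = i) :
    ∃ R : Finset X, Dom u s R ∧ ∀ i, ∃ x ∈ R, c x = i := by
  classical
  by_contra hno
  push Not at hno
  obtain ⟨i0⟩ := ‹Nonempty I›
  have hn : (univ.erase i0).card + 1 = Fintype.card I := by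
    rw [card_erase_add_one (mem_univ _), card_univ]
  obtain ⟨P, eP⟩ : ∃ P : Finset X → X → Prop, ∀ S z, P S z ↔ (z ∉ S ∧ Dom u s (insert z S) ∧
    S.card + 1 = Fintype.card I ∧ S.image c = univ.erase i0) := ⟨_, fun _ _ => Iff.rfl⟩
  obtain ⟨Q, eQ⟩ : ∃ Q : Finset X → X → Prop, ∀ R z, Q R z ↔ (z ∈ R ∧ Dom u s R ∧
    R.card = Fintype.card I ∧ (R.erase z).image c = univ.erase i0) := ⟨_, fun _ _ => Iff.rfl⟩
  have hPQ : ∑ S, (univ.filter (P S)).card = ∑ R, (univ.filter (Q R)).card := by
    have e1 : ∀ T : Finset X → X → Prop, ∑ S, (univ.filter (T S)).card =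
        (univ.filter fun p : Finset X × X => T p.1 p.2).card := fun T => by
      simp only [card_filter, Fintype.sum_prod_type]
    rw [e1, e1]
    refine card_nbij' (fun p => (insert p.2 p.1, p.2)) (fun p => (p.1.erase p.2, p.2)) ?_ ?_ ?_ ?_
    · rintro ⟨S, z⟩ hp
      obtain ⟨h1, h2, h3, h4⟩ := (eP S z).1 (by simpa using hp)
      have : Q (insert z S) z := (eQ _ _).2 ⟨mem_insert_self _ _, h2, by rw [card_insert_of_notMem h1, h3],
        by rw [erase_insert h1, h4]⟩
      simpa using this
    · rintro ⟨R, z⟩ hp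
      obtain ⟨h1, h2, h3, h4⟩ := (eQ R z).1 (by simpa using hp)
      have : P (R.erase z) z := (eP _ _).2 ⟨notMem_erase _ _, by rwa [insert_erase h1],
        by rw [card_erase_add_one h1, h3], h4⟩
      simpa using this
    · rintro ⟨S, z⟩ hp
      obtain ⟨h1, -⟩ := (eP S z).1 (by simpa using hp)
      simp [erase_insert h1]
    · rintro ⟨R, z⟩ hp
      obtain ⟨h1, -⟩ := (eQ R z).1 (by simpa using hp)
      simp [insert_erase h1]
  have hQ : Even (∑ R, (univ.filter (Q R)).card) := by
    refine even_sum _ fun R _ => ?_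
    rcases (univ.filter (Q R)).eq_empty_or_nonempty with he | ⟨z, hz⟩
    · simp [he]
    obtain ⟨h1, h2, h3, h4⟩ := (eQ R z).1 (mem_filter.1 hz).2
    have hinj : Set.InjOn c (R.erase z) := card_image_iff.1 (by
      have := card_erase_add_one h1
      rw [h4]; omega)
    have h5 : ∀ i, i ≠ i0 → ∃ x ∈ R.erase z, c x = i := fun i hi =>
      mem_image.1 (h4 ▸ mem_erase.2 ⟨hi, mem_univ _⟩)
    have h6 : c z ≠ i0 := fun e => by
      obtain ⟨i, hi⟩ := hno R h2
      by_cases h7 : i = i0
      · exact hi z h1 (e.trans h7.symm)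
      · obtain ⟨x, hx, hx'⟩ := h5 i h7
        exact hi x (mem_of_mem_erase hx) hx'
    obtain ⟨z', hz', h7⟩ := h5 _ h6
    have h8 : univ.filter (Q R) = {z, z'} := by
      ext w
      simp only [mem_filter, mem_univ, true_and, mem_insert, mem_singleton, eQ]
      refine ⟨fun ⟨w1, _, _, w4⟩ => ?_, ?_⟩
      · by_contra h9
        push Not at h9
        have h10 : w ∈ R.erase z := mem_erase.2 ⟨h9.1, w1⟩
        have h11 : c w ∈ (R.erase w).image c := by
          rw [w4, ← h4]
          exact mem_image_of_mem _ h10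
        obtain ⟨x, hx, hx'⟩ := mem_image.1 h11
        by_cases h12 : x = z
        · subst h12
          exact h9.2 (hinj h10 hz' (hx'.symm.trans h7.symm))
        · exact (mem_erase.1 hx).1 (hinj (mem_erase.2 ⟨h12, mem_of_mem_erase hx⟩) h10 hx')
      · rintro (rfl | rfl)
        · exact ⟨h1, h2, h3, h4⟩
        · refine ⟨mem_of_mem_erase hz', h2, h3, ?_⟩
          rw [← h4]
          ext i
          simp only [mem_image]
          constructor
          · rintro ⟨x, hx, rfl⟩
            by_cases h12 : x = z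
            · exact ⟨w, hz', h12 ▸ h7⟩
            · exact ⟨x, mem_erase.2 ⟨h12, mem_of_mem_erase hx⟩, rfl⟩
          · rintro ⟨x, hx, rfl⟩
            by_cases h12 : x = w
            · exact ⟨z, mem_erase.2 ⟨(mem_erase.1 hz').1.symm, h1⟩, h12 ▸ h7.symm⟩
            · exact ⟨x, mem_erase.2 ⟨h12, mem_of_mem_erase hx⟩, rfl⟩
    rw [h8, card_pair (mem_erase.1 hz').1.symm]
    exact even_two
  have hP0 : (univ.filter (P ((univ.erase i0).image s))).card = 1 := by
    obtain ⟨z, hz, hz'⟩ := exists_max_image (univ.filter fun y => y ∉ Set.range s) (u i0)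
      (by obtain ⟨y, hy⟩ := hT; exact ⟨y, by simpa using hy⟩)
    have hz1 := (mem_filter.1 hz).2
    have hlow : ∀ y, y ∉ Set.range s → ∀ k, ¬ u k y ≤ u k (s k) := fun y hy k e =>
      hy ⟨k, h.inj k (le_antisymm (h.low k y) e)⟩
    rw [card_eq_one]
    refine ⟨z, eq_singleton_iff_unique_mem.2 ⟨mem_filter.2 ⟨mem_univ _, (eP _ _).2
      ⟨fun e => ?_, ?_, ?_, ?_⟩⟩, fun w hw => ?_⟩⟩
    · obtain ⟨j, -, hj⟩ := mem_image.1 e
      exact hz1 ⟨j, hj⟩
    · refine fun y hy => ⟨i0, fun x hx => ?_⟩
      rcases mem_insert.1 hx with rfl | hx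
      · exact hz' y (mem_filter.2 ⟨mem_univ _, hy⟩)
      · obtain ⟨j, hj, rfl⟩ := mem_image.1 hx
        exact (h.high j i0 y (mem_erase.1 hj).1.symm hy).le
    · rw [card_image_of_injective _ h.sinj, hn]
    · rw [image_image]
      simp [Function.comp_def, hc]
    · obtain ⟨w1, w2, -⟩ := (eP _ w).1 (mem_filter.1 hw).2
      obtain ⟨i, hi⟩ := w2 z hz1
      have h1 : i = i0 := by
        by_contra h1
        exact hlow z hz1 i (hi _ (mem_insert_of_mem (mem_image_of_mem _
          (mem_erase.2 ⟨h1, mem_univ _⟩))))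
      subst h1
      have h2 := hi w (mem_insert_self _ _)
      by_cases h3 : w ∈ Set.range s
      · obtain ⟨j, rfl⟩ := h3
        by_cases h4 : j = i
        · exact absurd h2 (h4 ▸ hlow z hz1 j)
        · exact absurd (mem_image_of_mem _ (mem_erase.2 ⟨h4, mem_univ _⟩)) w1
      · exact h.inj i (le_antisymm (hz' w (mem_filter.2 ⟨mem_univ _, h3⟩)) h2)
  have hP : Even (∑ S ∈ univ.erase ((univ.erase i0).image s), (univ.filter (P S)).card) := by
    refine even_sum _ fun S hS => ?_
    rcases (univ.filter (P S)).eq_empty_or_nonempty with he | ⟨z, hz⟩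
    · simp [he]
    obtain ⟨h1, h2, h3, h4⟩ := (eP S z).1 (mem_filter.1 hz).2
    have h5 : ∃ x ∈ S, x ∉ Set.range s := by
      by_contra h5
      push Not at h5
      apply (mem_erase.1 hS).1
      rw [← h4, image_image]
      ext x
      simp only [mem_image, Function.comp]
      constructor
      · intro hx
        obtain ⟨j, rfl⟩ := h5 x hx
        exact ⟨s j, hx, by rw [hc]⟩
      · rintro ⟨y, hy, rfl⟩
        obtain ⟨j, rfl⟩ := h5 y hy
        rwa [hc]
    obtain ⟨x, hx, hx'⟩ := h5
    have h6 : Dom u s S := fun y hy => (h2 y hy).imp fun i hi x hx => hi x (mem_insert_of_mem hx)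
    have h7 := h.door h6 h3 hx hx'
    have h8 : (univ.filter (P S)).card = 2 := by
      rw [← h7]
      refine congrArg card ?_
      ext w
      simp only [mem_filter, mem_univ, true_and, eP]
      exact ⟨fun hw => ⟨hw.1, hw.2.1⟩, fun hw => ⟨hw.1, hw.2, h3, h4⟩⟩
    rw [h8]
    exact even_two
  rw [← hPQ, ← add_sum_erase _ _ (mem_univ ((univ.erase i0).image s)), hP0] at hQ
  exact (Nat.not_even_iff_odd.2 (odd_one.add_even hP)) hQ

end Pool.Agent.Lib.DH7
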