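import Mathlib
import Pool.Agent.Lib.DH7.Scarf

set_option autoImplicit false

open Finset

namespace Pool.Agent.Lib.DH7

/-- A discrete covering lemma: a small cluster of grid points whose labels contain every index
with a large coordinate. -/
theorem grid {ι : Type*} [Fintype ι] [Nonempty ι] (L : ℕ) (lab : (ι → ℕ) → ι) :
    ∃ (σ : Set (ι → ℕ)) (x0 : ι → ℕ), x0 ∈ σ ∧ (∀ x ∈ σ, ∀ i, x i ≤ L) ∧
      (∀ x ∈ σ, ∀ x' ∈ σ, ∀ i, x i ≤ x' i + Fintype.card ι) ∧
      L < ∑ i, x0 i + Fintype.card ι ∧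
      ∀ i, Fintype.card ι ≤ x0 i → ∃ x ∈ σ, lab x = i := by
  classical
  let T := {x : ι → Fin (L + 1) // ∑ i, (x i : ℕ) ≤ L}
  let X := T ⊕ ι
  let code : X → ℕ := fun x => (Fintype.equivFin X x : ℕ)
  have hcode : ∀ x, code x < Fintype.card X := fun x => (Fintype.equivFin X x).2
  have hinj : Function.Injective code := fun x y e => (Fintype.equivFin X).injective (Fin.ext e)
  let rk : ι → X → ℕ := fun i x => Sum.elim (fun t : T => (t.1 i : ℕ) + 1)
    (fun j => if j = i then 0 else L + 2) x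
  let u : ι → X → ℕ := fun i x => rk i x * Fintype.card X + code x
  have hlt : ∀ i x y, rk i x < rk i y → u i x < u i y := fun i x y e => by
    have h1 := hcode x
    have h2 := Nat.mul_le_mul_right (Fintype.card X) (Nat.succ_le_of_lt e)
    simp only [u]
    rw [Nat.succ_mul] at h2
    omega
  have hle : ∀ i x y, u i x ≤ u i y → rk i x ≤ rk i y := fun i x y e =>
    not_lt.1 fun h => absurd (hlt i y x h) (not_lt.2 e)
  have hord : ∀ y : X, y ∉ Set.range (Sum.inr : ι → X) → ∃ t : T, y = Sum.inl t := by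
    rintro (t | j) hy
    · exact ⟨t, rfl⟩
    · exact absurd ⟨j, rfl⟩ hy
  have hS : Slack u (Sum.inr : ι → X) := by
    refine ⟨fun i x y e => ?_, fun i x => ?_, fun i k y hk hy => ?_, Sum.inr_injective⟩
    · have h1 : rk i x = rk i y := le_antisymm (hle i x y e.le) (hle i y x e.ge)
      simp only [u, h1] at e
      exact hinj (by omega)
    · rcases x with t | j
      · exact (hlt i _ _ (by simp [rk])).le
      · by_cases h : j = i
        · rw [h]
        · exact (hlt i _ _ (by simp [rk, h])).le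
    · obtain ⟨t, rfl⟩ := hord y hy
      refine hlt k _ _ ?_
      have := (t.1 k).2
      simp only [rk, Sum.elim_inl, Sum.elim_inr, if_neg hk.symm]
      omega
  let val : T → ι → ℕ := fun t i => t.1 i
  let z : T := ⟨fun _ => 0, by simp⟩
  obtain ⟨R, hR, hc⟩ := hS.scarf ⟨Sum.inl z, by simp⟩ (Sum.elim (fun t => lab (val t)) id)
    fun _ => rfl
  have hdom : ∀ y : T, ∃ i, Sum.inr i ∉ R ∧ ∀ t : T, Sum.inl t ∈ R → val y i ≤ val t i := by
    intro y
    obtain ⟨i, hi⟩ := hR (Sum.inl y) (by simp)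
    refine ⟨i, fun h => ?_, fun t ht => ?_⟩
    · simpa [rk] using hle i _ _ (hi _ h)
    · simpa [rk, val] using hle i _ _ (hi _ ht)
  have hlab : ∀ i, Sum.inr i ∉ R → ∃ t : T, Sum.inl t ∈ R ∧ lab (val t) = i := by
    intro i hi
    obtain ⟨t | j, h1, h2⟩ := hc i
    · exact ⟨t, h1, h2⟩
    · exact absurd (h2 ▸ h1) hi
  obtain ⟨i0, hi0, -⟩ := hdom z
  obtain ⟨t0, ht0, -⟩ := hlab i0 hi0
  choose m hm hm' using fun i => exists_min_image (univ.filter fun t : T => Sum.inl t ∈ R)
    (fun t => val t i) ⟨t0, by simpa using ht0⟩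
  have hm2 : ∀ i (t : T), Sum.inl t ∈ R → val (m i) i ≤ val t i := fun i t ht =>
    hm' i t (by simpa using ht)
  let y : ι → ℕ := fun i => if Sum.inr i ∈ R then 0 else val (m i) i + 1
  have hy : L < ∑ i, y i := by
    by_contra hy
    have hy' := not_lt.1 hy
    have h1 : ∀ i, y i < L + 1 := fun i =>
      Nat.lt_succ_of_le ((single_le_sum (fun _ _ => Nat.zero_le _) (mem_univ i)).trans hy')
    obtain ⟨i, h2, h3⟩ := hdom ⟨fun i => ⟨y i, h1 i⟩, hy'⟩
    have h4 := h3 (m i) (by simpa using hm i)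
    have h5 : y i = val (m i) i + 1 := if_neg h2
    have h6 : y i ≤ val (m i) i := h4
    omega
  have hyle : ∀ t : T, Sum.inl t ∈ R → ∀ i, y i ≤ val t i + 1 := fun t ht i => by
    have := hm2 i t ht
    simp only [y]
    split_ifs <;> omega
  have hup : ∀ t : T, Sum.inl t ∈ R → ∀ i, val t i + 1 ≤ y i + Fintype.card ι - 1 := by
    intro t ht i
    have h1 : ∑ k ∈ univ.erase i, y k ≤ ∑ k ∈ univ.erase i, (val t k + 1) :=
      sum_le_sum fun k _ => hyle t ht k
    rw [sum_add_distrib, sum_const, smul_eq_mul, mul_one] at h1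
    have h2 := add_sum_erase univ y (mem_univ i)
    have h3 := add_sum_erase univ (val t) (mem_univ i)
    have h4 : ∑ k, val t k ≤ L := t.2
    have h5 := card_erase_add_one (mem_univ i)
    rw [card_univ] at h5
    omega
  refine ⟨{x | ∃ t : T, Sum.inl t ∈ R ∧ val t = x}, val t0, ⟨t0, ht0, rfl⟩, ?_, ?_, ?_, ?_⟩
  · rintro _ ⟨t, -, rfl⟩ i
    exact Nat.le_of_lt_succ (t.1 i).2
  · rintro _ ⟨t, ht, rfl⟩ _ ⟨t', ht', rfl⟩ i
    have := hup t ht i
    have := hyle t' ht' i
    omega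
  · have h1 : ∑ k, y k ≤ ∑ k, (val t0 k + 1) := sum_le_sum fun k _ => hyle t0 ht0 k
    rw [sum_add_distrib, sum_const, smul_eq_mul, mul_one, card_univ] at h1
    omega
  · intro i hi
    have h1 : Sum.inr i ∉ R := fun h => by
      have h2 := hup t0 ht0 i
      have h3 : y i = 0 := if_pos h
      omega
    obtain ⟨t, h2, h3⟩ := hlab i h1
    exact ⟨_, ⟨t, h2, rfl⟩, h3⟩

end Pool.Agent.Lib.DH7
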