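import Mathlib
import Pool.Agent.Lib.DH7.Grid
import Pool.Agent.Lib.MP_15a8b6_co.Comb

set_option autoImplicit false

open Finset Relation

namespace Pool.Agent.Lib.DH7

open Pool.Agent.Lib.MP_15a8b6_co

variable {V X ι : Type*}

/-- One walk for every oriented edge; walks with different tails only share a point when the
head of one is the tail of the other. -/
structure Walks (root : V → X) (t hd : ι → V) (p : ι → ℕ → X) (k : ι → ℕ) (R : X → X → Prop) :
    Prop where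
  inj : Function.Injective root
  ne : ∀ e, t e ≠ hd e
  start : ∀ e, p e 0 = root (t e)
  stop : ∀ e, p e (k e) = root (hd e)
  step : ∀ e i, i < k e → R (p e i) (p e (i + 1))
  symm : ∀ a b, R a b → R b a
  roots : ∀ e i v, i ≤ k e → p e i = root v → v = t e ∨ v = hd e
  pair : ∀ e f i j, i ≤ k e → j ≤ k f → p e i = p f j → p e i ∉ Set.range root → t e ≠ t f →
    hd e = t f ∨ hd f = t e
  triple : ∀ e f g i j l, i ≤ k e → j ≤ k f → l ≤ k g → p e i = p f j → p e i = p g l →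
    p e i ∉ Set.range root → t e ≠ t f → t g = t e ∨ t g = t f

theorem exists_pass (key : ι → ℕ → ℕ) (hk : ∀ e i, key e i < key e (i + 1)) (ok : ι → ℕ → Prop)
    (cl : ι → ℕ → ι → ℕ → Prop) : ∃ pass : ι → ℕ → Prop, (∀ e, pass e 0) ∧ ∀ e i,
      pass e (i + 1) ↔ pass e i ∧ ok e i ∧
        ¬ ∃ f j, cl e i f j ∧ key f (j + 1) < key e (i + 1) ∧ pass f (j + 1) := by
  have wf : WellFounded fun a b : ι × ℕ => key a.1 a.2 < key b.1 b.2 :=
    InvImage.wf (fun a : ι × ℕ => key a.1 a.2) Nat.lt_wfRel.wf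
  let F : (a : ι × ℕ) → ((b : ι × ℕ) → key b.1 b.2 < key a.1 a.2 → Prop) → Prop := fun a ih =>
    ∀ i, a.2 = i + 1 → (∃ h : key a.1 i < key a.1 a.2, ih (a.1, i) h) ∧ ok a.1 i ∧
      ¬ ∃ f j, cl a.1 i f j ∧ ∃ h : key f (j + 1) < key a.1 a.2, ih (f, j + 1) h
  refine ⟨fun e i => wf.fix F (e, i), fun e => ?_, fun e i => ?_⟩
  · show wf.fix F (e, 0)
    rw [wf.fix_eq]
    intro i hi
    exact absurd hi (by simp)
  · show wf.fix F (e, i + 1) ↔ _
    rw [wf.fix_eq]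
    constructor
    · intro h
      obtain ⟨⟨_, h1⟩, h2, h3⟩ := h i rfl
      exact ⟨h1, h2, fun ⟨f, j, a1, a2, a3⟩ => h3 ⟨f, j, a1, a2, a3⟩⟩
    · rintro ⟨h1, h2, h3⟩ i' hi
      obtain rfl : i = i' := Nat.succ_injective hi
      exact ⟨⟨hk e i, h1⟩, h2, fun ⟨f, j, a1, a2, a3⟩ => h3 ⟨f, j, a1, a2, a3⟩⟩

/-- The rule of the race. -/
def Rule (root : V → X) (t hd : ι → V) (p : ι → ℕ → X) (k : ι → ℕ) (key : ι → ℕ → ℕ)
    (pass : ι → ℕ → Prop) : Prop :=
  (∀ e, pass e 0) ∧ ∀ e i, pass e (i + 1) ↔ pass e i ∧ (i < k e ∧ p e (i + 1) ≠ root (hd e)) ∧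
    ¬ ∃ f j, (p f (j + 1) = p e (i + 1) ∧ t f ≠ t e) ∧ key f (j + 1) < key e (i + 1) ∧
      pass f (j + 1)

/-- The territory of a vertex. -/
def Terr (root : V → X) (t : ι → V) (p : ι → ℕ → X) (pass : ι → ℕ → Prop) (v : V) : Set X :=
  {x | x = root v ∨ ∃ e i, pass e i ∧ t e = v ∧ p e i = x}

variable {root : V → X} {t hd : ι → V} {p : ι → ℕ → X} {k : ι → ℕ} {R : X → X → Prop}
  {key : ι → ℕ → ℕ} {pass : ι → ℕ → Prop}

theorem Rule.le (h : Rule root t hd p k key pass) {e : ι} {i : ℕ} (hi : pass e i) : i ≤ k e := by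
  cases i with
  | zero => exact Nat.zero_le _
  | succ i => exact ((h.2 e i).1 hi).2.1.1

theorem Rule.root_eq (h : Rule root t hd p k key pass) (w : Walks root t hd p k R) {e : ι} {i : ℕ}
    (hi : pass e i) {v : V} (hv : p e i = root v) : v = t e := by
  refine (w.roots e i v (h.le hi) hv).resolve_right ?_
  rintro rfl
  cases i with
  | zero => exact w.ne e (w.inj ((w.start e).symm.trans hv))
  | succ i => exact ((h.2 e i).1 hi).2.1.2 hv

theorem Rule.disjoint (h : Rule root t hd p k key pass) (w : Walks root t hd p k R)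
    (hkey : ∀ e f i j, key e i = key f j → e = f) {u v : V} {x : X}
    (hu : x ∈ Terr root t p pass u) (hv : x ∈ Terr root t p pass v) : u = v := by
  rcases hu with rfl | ⟨e, i, h1, rfl, rfl⟩
  · rcases hv with hv | ⟨f, j, h2, rfl, h3⟩
    · exact w.inj hv
    · exact h.root_eq w h2 h3
  rcases hv with hv | ⟨f, j, h2, rfl, h3⟩
  · exact (h.root_eq w h1 hv).symm
  by_contra hne
  cases i with
  | zero => exact hne (h.root_eq w h2 (h3.trans (w.start e)))
  | succ i =>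
  cases j with
  | zero => exact hne (h.root_eq w h1 (h3.symm.trans (w.start f))).symm
  | succ j =>
  rcases lt_trichotomy (key f (j + 1)) (key e (i + 1)) with h4 | h4 | h4
  · exact ((h.2 e i).1 h1).2.2 ⟨f, j, ⟨h3, Ne.symm hne⟩, h4, h2⟩
  · exact hne (by rw [hkey _ _ _ _ h4])
  · exact ((h.2 f j).1 h2).2.2 ⟨e, i, ⟨h3.symm, hne⟩, h4, h1⟩

theorem Rule.conn (h : Rule root t hd p k key pass) (w : Walks root t hd p k R) {v : V} {x : X}
    (hx : x ∈ Terr root t p pass v) : ConnIn R (Terr root t p pass v) (root v) x := by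
  rcases hx with rfl | ⟨e, i, h1, rfl, rfl⟩
  · exact .refl
  induction i with
  | zero => rw [w.start]; exact .refl
  | succ i ih =>
    have h2 := (h.2 e i).1 h1
    exact (ih h2.1).tail ⟨w.step e i h2.2.1.1, Or.inr ⟨e, i, h2.1, rfl, rfl⟩,
      Or.inr ⟨e, i + 1, h1, rfl, rfl⟩⟩

/-- The first contact satisfies one edge, for all nearby delays. -/
theorem first_contact [Nonempty ι] (w : Walks root t hd p k R) (σ : Set (ι → ℕ)) (δ : ℕ)
    (hσ : ∀ d ∈ σ, ∀ d' ∈ σ, ∀ e, d e ≤ d' e + δ) {d0 : ι → ℕ} (hd0 : d0 ∈ σ)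
    (key : (ι → ℕ) → ι → ℕ → ℕ) (hkey : ∀ d e f i j, key d f j < key d e i →
      d f + (2 * δ + 1) * j ≤ d e + (2 * δ + 1) * i)
    (pass : (ι → ℕ) → ι → ℕ → Prop) (hp : ∀ d, Rule root t hd p k (key d) (pass d)) :
    ∃ h, (∀ d ∈ σ, ∃ a ∈ Terr root t p (pass d) (t h), ∃ b ∈ Terr root t p (pass d) (hd h),
      R a b) ∧ ∀ e, d0 h ≤ d0 e + (2 * δ + 1) * k e := by
  obtain ⟨M, hM⟩ : ∃ M, M = 2 * δ + 1 := ⟨_, rfl⟩
  rw [← hM] at hkey ⊢
  let Ev : ι → ℕ → Prop := fun e i => i < k e ∧ (p e (i + 1) = root (hd e) ∨ ∃ f j, j < k f ∧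
    p f (j + 1) = p e (i + 1) ∧ t f ≠ t e ∧ d0 f + M * j ≤ d0 e + M * i)
  have hlast : ∀ e, ∃ i, i + 1 = k e ∧ Ev e i := fun e => by
    have h1 : k e ≠ 0 := fun h => w.ne e (w.inj ((w.start e).symm.trans (h ▸ w.stop e)))
    obtain ⟨i, hi⟩ := Nat.exists_eq_succ_of_ne_zero h1
    exact ⟨i, hi.symm, by omega, Or.inl (by rw [← w.stop e, hi])⟩
  obtain ⟨⟨e, i⟩, hev, hmin⟩ := (InvImage.wf (fun a : ι × ℕ => d0 a.1 + M * a.2)
    Nat.lt_wfRel.wf).has_min {a | Ev a.1 a.2} (by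
      obtain ⟨e⟩ := ‹Nonempty ι›
      obtain ⟨i, -, hi⟩ := hlast e
      exact ⟨(e, i), hi⟩)
  have hmin' : ∀ g l, Ev g l → d0 e + M * i ≤ d0 g + M * l := fun g l h =>
    not_lt.1 (hmin (g, l) h)
  have hbound : ∀ g, d0 e + M * i ≤ d0 g + M * k g := fun g => by
    obtain ⟨l, h1, h2⟩ := hlast g
    have := hmin' g l h2
    rw [← h1, mul_add]
    omega
  have hpass : ∀ d ∈ σ, ∀ g l, l ≤ k g → d0 g + M * l ≤ d0 e + M * i → pass d g l := by
    intro d hd' g l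
    induction l with
    | zero => exact fun _ _ => (hp d).1 g
    | succ l ih =>
      intro h1 h2
      rw [mul_add, mul_one] at h2
      refine ((hp d).2 g l).2 ⟨ih (by omega) (by omega), ⟨h1, fun h3 => ?_⟩, ?_⟩
      · have := hmin' g l ⟨h1, Or.inl h3⟩
        omega
      · rintro ⟨f, j, ⟨h3, h4⟩, h5, h6⟩
        have h7 := hkey d _ _ _ _ h5
        rw [mul_add, mul_add, mul_one] at h7
        have h8 := hσ d0 hd0 d hd' f
        have h9 := hσ d hd' d0 hd0 g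
        have h10 : j < k f := (hp d).le h6
        by_cases h11 : d0 f + M * j ≤ d0 g + M * l
        · have := hmin' g l ⟨h1, Or.inr ⟨f, j, h10, h3, h4, h11⟩⟩
          omega
        · have := hmin' f j ⟨h10, Or.inr ⟨g, l, h1, h3.symm, h4.symm, by omega⟩⟩
          omega
  by_cases h1 : ∃ g l, l < k g ∧ p g (l + 1) = root (hd g) ∧ d0 g + M * l ≤ d0 e + M * i
  · obtain ⟨g, l, h2, h3, h4⟩ := h1
    refine ⟨g, fun d hd' => ⟨p g l, Or.inr ⟨g, l, hpass d hd' g l h2.le h4, rfl, rfl⟩, _,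
      Or.inl rfl, h3 ▸ w.step g l h2⟩, fun e' => ?_⟩
    have := hbound e'
    omega
  push Not at h1
  obtain ⟨h2, h3 | ⟨f, j, h3, h4, h5, h6⟩⟩ := hev
  · exact absurd (h1 e i h2 h3) (lt_irrefl _)
  dsimp only at h2 h3 h4 h5 h6
  have h7 : p e (i + 1) ≠ root (hd e) := fun h => absurd (h1 e i h2 h) (lt_irrefl _)
  have h8 : p e (i + 1) ∉ Set.range root := by
    rintro ⟨v, hv⟩
    have a1 := (w.roots e (i + 1) v h2 hv.symm).resolve_right fun h => h7 (h ▸ hv.symm)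
    have a2 := (w.roots f (j + 1) v h3 (h4.trans hv.symm)).resolve_right fun h =>
      absurd (h1 f j h3 (h ▸ h4.trans hv.symm)) (not_lt.2 h6)
    exact h5 (a2.symm.trans a1)
  have h9 : ∀ d ∈ σ, ∃ a ∈ Terr root t p (pass d) (t e), ∃ b ∈ Terr root t p (pass d) (t f),
      R a b := by
    intro d hd'
    have a1 := hpass d hd' e i h2.le le_rfl
    have a2 := hpass d hd' f j h3.le h6
    by_cases a3 : pass d e (i + 1)
    · exact ⟨_, Or.inr ⟨e, i + 1, a3, rfl, rfl⟩, _, Or.inr ⟨f, j, a2, rfl, rfl⟩,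
        w.symm _ _ (h4 ▸ w.step f j h3)⟩
    · obtain ⟨g, l, ⟨a4, a5⟩, -, a6⟩ : ∃ g l, (p g (l + 1) = p e (i + 1) ∧ t g ≠ t e) ∧
          key d g (l + 1) < key d e (i + 1) ∧ pass d g (l + 1) := by
        by_contra a4
        exact a3 (((hp d).2 e i).2 ⟨a1, ⟨h2, h7⟩, a4⟩)
      have a7 := (w.triple e f g (i + 1) (j + 1) (l + 1) h2 h3 ((hp d).le a6) h4.symm a4.symm h8
        h5.symm).resolve_left a5
      exact ⟨_, Or.inr ⟨e, i, a1, rfl, rfl⟩, _, Or.inr ⟨g, l + 1, a6, a7, a4⟩, w.step e i h2⟩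
  rcases w.pair e f (i + 1) (j + 1) h2 h3 h4.symm h8 h5.symm with a1 | a1
  · refine ⟨e, fun d hd' => a1 ▸ h9 d hd', fun e' => ?_⟩
    have := hbound e'
    omega
  · refine ⟨f, fun d hd' => ?_, fun e' => ?_⟩
    · obtain ⟨a, ha, b, hb, hab⟩ := h9 d hd'
      exact ⟨b, hb, a, a1 ▸ ha, w.symm _ _ hab⟩
    · have := hbound e'
      omega

/-- For suitable delays the territories of the two ends of every edge are adjacent. -/
theorem race [Finite ι] (w : Walks root t hd p k R) : ∃ T : V → Set X, (∀ v, root v ∈ T v) ∧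
    (∀ u v x, x ∈ T u → x ∈ T v → u = v) ∧ (∀ v, ∀ x ∈ T v, ConnIn R (T v) (root v) x) ∧
    (∀ v, ∀ x ∈ T v, x = root v ∨ ∃ e i, i ≤ k e ∧ p e i = x) ∧
    ∀ e, ∃ a ∈ T (t e), ∃ b ∈ T (hd e), R a b := by
  classical
  have := Fintype.ofFinite ι
  rcases isEmpty_or_nonempty ι with hι | hι
  · exact ⟨fun v => {root v}, fun v => rfl, fun u v x h1 h2 => w.inj (h1.symm.trans h2),
      fun v x hx => hx ▸ .refl, fun v x hx => Or.inl hx, fun e => (hι.false e).elim⟩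
  obtain ⟨n, hn⟩ : ∃ n, n = Fintype.card ι := ⟨_, rfl⟩
  have hn0 : 0 < n := hn ▸ Fintype.card_pos
  let idx : ι → ℕ := fun e => (Fintype.equivFin ι e : ℕ)
  have hidx : ∀ e, idx e < n := fun e => hn ▸ (Fintype.equivFin ι e).2
  have hinj : Function.Injective idx := fun x y e => (Fintype.equivFin ι).injective (Fin.ext e)
  let key : (ι → ℕ) → ι → ℕ → ℕ := fun d e i => (d e + (2 * n + 1) * i) * n + idx e
  have hk1 : ∀ d e i, key d e i < key d e (i + 1) := fun d e i => by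
    simp only [key]
    nlinarith
  have hk2 : ∀ d e f i j, key d f j < key d e i →
      d f + (2 * n + 1) * j ≤ d e + (2 * n + 1) * i := fun d e f i j h => by
    by_contra h1
    have h2 := Nat.mul_le_mul_right n (Nat.succ_le_of_lt (not_le.1 h1))
    have h3 := hidx e
    simp only [key] at h
    rw [Nat.succ_mul] at h2
    omega
  have hk3 : ∀ d e f i j, key d e i = key d f j → e = f := fun d e f i j h => by
    have h1 := congrArg (· % n) h
    simp only [key, Nat.mul_add_mod_self_right] at h1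
    rw [Nat.mod_eq_of_lt (hidx e), Nat.mod_eq_of_lt (hidx f)] at h1
    exact hinj h1
  choose pass hp1 hp2 using fun d => exists_pass (key d) (hk1 d)
    (fun e i => i < k e ∧ p e (i + 1) ≠ root (hd e))
    (fun e i f j => p f (j + 1) = p e (i + 1) ∧ t f ≠ t e)
  have hp : ∀ d, Rule root t hd p k (key d) (pass d) := fun d => ⟨hp1 d, hp2 d⟩
  suffices h : ∃ d, ∀ e, ∃ a ∈ Terr root t p (pass d) (t e), ∃ b ∈ Terr root t p (pass d) (hd e),
      R a b by
    obtain ⟨d, hd'⟩ := h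
    refine ⟨Terr root t p (pass d), fun v => Or.inl rfl, fun u v x => (hp d).disjoint w (hk3 d),
      fun v x hx => (hp d).conn w hx, ?_, hd'⟩
    rintro v x (h | ⟨e, i, h1, -, h2⟩)
    · exact Or.inl h
    · exact Or.inr ⟨e, i, (hp d).le h1, h2⟩
  by_contra hno
  obtain ⟨lab, hlab⟩ : ∃ lab : (ι → ℕ) → ι, ∀ d, ¬ ∃ a ∈ Terr root t p (pass d) (t (lab d)),
      ∃ b ∈ Terr root t p (pass d) (hd (lab d)), R a b := by
    have : ∀ d, ∃ e, ¬ ∃ a ∈ Terr root t p (pass d) (t e),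
      ∃ b ∈ Terr root t p (pass d) (hd e), R a b := fun d => not_forall.1 fun h => hno ⟨d, h⟩
    exact ⟨fun d => (this d).choose, fun d => (this d).choose_spec⟩
  obtain ⟨K, hK⟩ : ∃ K, ∀ e, (2 * n + 1) * k e ≤ K :=
    ⟨∑ e, (2 * n + 1) * k e, fun e => single_le_sum (f := fun e => (2 * n + 1) * k e)
      (fun _ _ => Nat.zero_le _) (mem_univ e)⟩
  obtain ⟨L, hL⟩ : ∃ L, L = n * (n + K + 1) := ⟨_, rfl⟩
  obtain ⟨σ, x0, h1, h2, h3, h4, h5⟩ := grid L fun x => lab fun e => L - x e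
  rw [← hn] at h3 h4 h5
  obtain ⟨e, he⟩ : ∃ e, n + K ≤ x0 e := by
    by_contra h6
    push Not at h6
    have h7 : ∑ i, x0 i ≤ ∑ _i : ι, (n + K) := sum_le_sum fun i _ => (h6 i).le
    rw [sum_const, card_univ, smul_eq_mul, ← hn] at h7
    rw [hL, mul_add, mul_one] at h4
    omega
  obtain ⟨h, h6, h7⟩ := first_contact w ((fun x e => L - x e) '' σ) n (by
    rintro _ ⟨x, hx, rfl⟩ _ ⟨x', hx', rfl⟩ i
    have := h3 x' hx' x hx i
    dsimp only
    omega) ⟨x0, h1, rfl⟩ key hk2 pass hp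
  have h8 := h7 e
  have h9 := hK e
  have h10 := h2 x0 h1 e
  have h11 := h2 x0 h1 h
  dsimp only at h8
  obtain ⟨x, hx, hx'⟩ := h5 h (by omega)
  exact hlab _ (hx' ▸ h6 _ ⟨x, hx, rfl⟩)

end Pool.Agent.Lib.DH7
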