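import Mathlib
import Pool.Agent.Lib.DH7.Race
import Pool.Agent.Lib.MP_15a8b6_co.Plan

set_option autoImplicit false

open Set Function Relation

namespace Pool.Agent.Lib.DH7

open Pool.Agent.Lib.MP_15a8b6_co

variable {V X ι : Type*}

theorem conn_first {R : X → X → Prop} {T : Set X} {a b : X} (h : ConnIn R T a b) (hb : b ≠ a) :
    ∃ y ∈ T, y ≠ a ∧ R a y := by
  induction h with
  | refl => exact absurd rfl hb
  | @tail c d _ h ih =>
    by_cases hc : c = a
    · exact ⟨d, h.2.2, hb, hc ▸ h.1⟩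
    · exact ih hc

theorem conn_walk {R : X → X → Prop} {T : Set X} {a b : X} (h : ConnIn R T a b) (ha : a ∈ T) :
    ∃ (p : ℕ → X) (k : ℕ), p 0 = a ∧ p k = b ∧ (∀ i, i < k → R (p i) (p (i + 1))) ∧
      ∀ i, i ≤ k → p i ∈ T := by
  induction h with
  | refl => exact ⟨fun _ => a, 0, rfl, rfl, fun i hi => absurd hi (by simp), fun _ _ => ha⟩
  | @tail c d _ h ih =>
    obtain ⟨p, k, h1, h2, h3, h4⟩ := ih
    refine ⟨fun i => if i ≤ k then p i else d, k + 1, by simp [h1], by simp, fun i hi => ?_,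
      fun i _ => ?_⟩
    · have h5 : i ≤ k := by omega
      by_cases h6 : i + 1 ≤ k
      · simp only [if_pos h5, if_pos h6]
        exact h3 i h6
      · obtain rfl : i = k := by omega
        simp only [if_pos h5, if_neg h6, h2]
        exact h.1
    · dsimp only
      split_ifs with h5
      · exact h4 i h5
      · exact h.2.2

/-- Contracting disjoint connected territories. -/
theorem terr_minor [Fintype V] [DecidableEq X] (P : Finset X → (X → X → Prop) → Prop)
    (mono : ∀ W W' R R', P W R → W' ⊆ W → (∀ a ∈ W', ∀ b ∈ W', a ≠ b → R' a b → R a b) → P W' R')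
    (contract : ∀ W R x y, P W R → x ∈ W → y ∈ W → x ≠ y → R x y →
      P (W.erase y) fun a b => ∃ a' ∈ W, ∃ b' ∈ W, R a' b' ∧
        (if a' = y then x else a') = a ∧ (if b' = y then x else b') = b)
    {root : V → X} (t hd : ι → V) (n : ℕ) :
    ∀ W R (T : V → Set X), W.card < n → P W R → (∀ v, root v ∈ T v) → (∀ v, ∀ x ∈ T v, x ∈ W) →
      (∀ u v x, x ∈ T u → x ∈ T v → u = v) → (∀ v, ∀ x ∈ T v, ConnIn R (T v) (root v) x) →
      (∀ e, ∃ a ∈ T (t e), ∃ b ∈ T (hd e), R a b) →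
      P (Finset.univ.image root) fun a b => ∃ e, a = root (t e) ∧ b = root (hd e) := by
  induction n with
  | zero => intro W R T h; omega
  | succ n ih =>
  intro W R T h1 h2 h3 h4 h5 h6 h7
  by_cases h8 : ∃ v, ∃ y ∈ T v, y ≠ root v
  · obtain ⟨v, y0, hy0, hy0'⟩ := h8
    obtain ⟨y, hy, hy', hR⟩ := conn_first (h6 v y0 hy0) hy0'
    have hr : ∀ u, root u ≠ y := fun u e => hy' (by rw [← e, h5 u v _ (h3 u) (e ▸ hy)])
    have key : ∀ u, ∀ a ∈ T u, (if a = y then root v else a) ∈ T u \ {y} := by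
      intro u a ha
      split_ifs with h9
      · rw [h5 u v a ha (h9 ▸ hy)]
        exact ⟨h3 v, hr v⟩
      · exact ⟨ha, h9⟩
    have := Finset.card_erase_lt_of_mem (h4 v y hy)
    refine ih _ _ (fun u => T u \ {y}) (by omega)
      (contract W R (root v) y h2 (h4 v _ (h3 v)) (h4 v y hy) hy'.symm hR)
      (fun u => ⟨h3 u, hr u⟩) (fun u x hx => Finset.mem_erase.2 ⟨hx.2, h4 u x hx.1⟩)
      (fun u u' x a b => h5 u u' x a.1 b.1) (fun u x hx => ?_) fun e => ?_
    · have h9 := (h6 u x hx.1).lift (fun w => if w = y then root v else w)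
        (R' := fun a b => ∃ a' ∈ W, ∃ b' ∈ W, R a' b' ∧
          (if a' = y then root v else a') = a ∧ (if b' = y then root v else b') = b)
        (T' := T u \ {y}) fun a b h ha hb => ReflTransGen.single
          ⟨⟨a, h4 u a ha, b, h4 u b hb, h, rfl, rfl⟩, key u a ha, key u b hb⟩
      rwa [if_neg (hr u), if_neg (show ¬ x = y from hx.2)] at h9
    · obtain ⟨a, ha, b, hb, hab⟩ := h7 e
      exact ⟨_, key _ a ha, _, key _ b hb, a, h4 _ a ha, b, h4 _ b hb, hab, rfl, rfl⟩
  · push Not at h8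
    refine mono W _ R _ h2 (fun w hw => ?_) ?_
    · obtain ⟨v, -, rfl⟩ := Finset.mem_image.1 hw
      exact h4 v _ (h3 v)
    · rintro _ - _ - - ⟨e, rfl, rfl⟩
      obtain ⟨a, ha, b, hb, hab⟩ := h7 e
      rwa [h8 _ a ha, h8 _ b hb] at hab

variable {G : SimpleGraph V} {S : Type*} [TopologicalSpace S]

theorem distinct_heads [Finite V] [T2Space S] [ChartedSpace (EuclideanSpace ℝ (Fin 2)) S]
    (D : Drawing G S) (head : G.edgeSet → V) (hhead : ∀ e : G.edgeSet, head e ∈ (e : Sym2 V))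
    (h3 : ∀ (e f g : G.edgeSet) (x : S), x ∉ range D.pos → x ∈ range (D.arc e) →
      x ∈ range (D.arc f) → x ∈ range (D.arc g) →
      ∃ v, v ∈ (e : Sym2 V) ∧ v ∈ (f : Sym2 V) ∧ v ∈ (g : Sym2 V))
    (h2 : ∀ e f : G.edgeSet, e ≠ f → D.Meet e f → head e ≠ head f) :
    ∃ D' : Drawing G S, ∀ e f, e ≠ f → ¬ D'.Meet e f := by
  classical
  have := Fintype.ofFinite V
  obtain ⟨c, hc, hc'⟩ : ∃ c : G.edgeSet → Bool → V,
      (∀ e : G.edgeSet, (e : Sym2 V) = s(c e false, c e true)) ∧ ∀ e, c e true = head e :=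
    ⟨fun e b => if b then head e else Sym2.Mem.other (hhead e),
      fun e => by simp [Sym2.eq_swap], fun e => by simp⟩
  have hm : ∀ e f x, x ∉ range D.pos → x ∈ range (D.arc e) → x ∈ range (D.arc f) → e ≠ f →
      c e true ≠ c f true := by
    rintro e f x hp ⟨s, hs⟩ ⟨t, ht⟩ hef
    rw [hc', hc']
    obtain ⟨u, v, -, h0, h1⟩ := D.ends e
    obtain ⟨u', v', -, h0', h1'⟩ := D.ends f
    refine h2 e f hef ⟨s, t, ?_, ?_, ?_, ?_, hs.trans ht.symm⟩ <;> rintro rfl
    · exact hp ⟨u, h0.symm.trans hs⟩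
    · exact hp ⟨v, h1.symm.trans hs⟩
    · exact hp ⟨u', h0'.symm.trans ht⟩
    · exact hp ⟨v', h1'.symm.trans ht⟩
  have hroot : ∀ e v, D.pos v ∈ range (D.arc e) → v = c e false ∨ v = c e true := by
    rintro e w ⟨t, ht⟩
    obtain ⟨u, v, h5, h6, h7⟩ := D.ends e
    rw [← Sym2.mem_iff, ← hc e, h5, Sym2.mem_iff]
    rcases D.avoid e t w ht with rfl | rfl
    · exact Or.inl (D.pos_inj (ht.symm.trans h6))
    · exact Or.inr (D.pos_inj (ht.symm.trans h7))
  obtain ⟨W, R, a1, a2, a3, a4⟩ := D.planarise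
  have hwalk : ∀ e : G.edgeSet, ∃ (p : ℕ → S) (k : ℕ), p 0 = D.pos (c e false) ∧
      p k = D.pos (c e true) ∧ (∀ i, i < k → R (p i) (p (i + 1))) ∧
      ∀ i, i ≤ k → p i ∈ range (D.arc e) ∩ W := by
    intro e
    obtain ⟨u, v, h5, h6, h7⟩ := D.ends e
    have h8 := a4 e
    rw [h6, h7] at h8
    rcases Sym2.eq_iff.1 (h5.symm.trans (hc e)) with ⟨rfl, rfl⟩ | ⟨rfl, rfl⟩
    · exact conn_walk h8 ⟨⟨0, h6⟩, a2 _⟩
    · exact conn_walk (h8.symm a3) ⟨⟨1, h7⟩, a2 _⟩
  choose p k b1 b2 b3 b4 using hwalk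
  have hstar : ∀ e f g x, x ∉ range D.pos → x ∈ range (D.arc e) → x ∈ range (D.arc f) →
      x ∈ range (D.arc g) → c e false ≠ c f false →
      (c e true = c f false ∨ c f true = c e false) ∧
        (c g false = c e false ∨ c g false = c f false) := by
    intro e f g x hx he hf hg hne
    obtain ⟨v, v1, v2, v3⟩ := h3 e f g x hx he hf hg
    rw [hc, Sym2.mem_iff] at v1 v2 v3
    have hef : e ≠ f := fun h => hne (by rw [h])
    have k1 := hm e f x hx he hf hef
    rcases v1 with v1 | v1 <;> rcases v2 with v2 | v2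
    · exact absurd (v1.symm.trans v2) hne
    · refine ⟨Or.inr (v2.symm.trans v1), ?_⟩
      by_cases h : g = f
      · exact Or.inr (by rw [h])
      · exact Or.inl ((v3.resolve_right fun h' =>
          hm g f x hx hg hf h (h'.symm.trans v2)).symm.trans v1)
    · refine ⟨Or.inl (v1.symm.trans v2), ?_⟩
      by_cases h : g = e
      · exact Or.inl (by rw [h])
      · exact Or.inr ((v3.resolve_right fun h' =>
          hm g e x hx hg he h (h'.symm.trans v1)).symm.trans v2)
    · exact absurd (v1.symm.trans v2) k1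
  have w : Walks D.pos (fun e => c e false) (fun e => c e true) p k R :=
    ⟨D.pos_inj, fun e he => G.not_isDiag_of_mem_edgeSet e.2 (by rw [hc e, he]; simp), b1, b2, b3,
      a3, fun e i v hi hv => hroot e v (hv ▸ (b4 e i hi).1),
      fun e f i j hi hj h hx hne => (hstar e f e _ hx (b4 e i hi).1 (h ▸ (b4 f j hj).1)
        (b4 e i hi).1 hne).1,
      fun e f g i j l hi hj hl h h' hx hne => (hstar e f g _ hx (b4 e i hi).1
        (h ▸ (b4 f j hj).1) (h' ▸ (b4 g l hl).1) hne).2⟩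
  obtain ⟨T, t1, t2, t3, t4, t5⟩ := race w
  refine drawing_of_emb D.pos_inj c hc (terr_minor (Emb S (G.edgeSet × unitInterval × unitInterval))
    (fun _ _ _ _ h => h.mono) (fun _ _ _ _ h => h.contract fun _ _ hO hp => exists_disc
      (E := EuclideanSpace ℝ (Fin 2)) hO hp) (fun e => c e false) (fun e => c e true) _ W R T
    (Nat.lt_succ_self _) a1 t1 (fun v x hx => ?_) t2 t3 t5)
  rcases t4 v x hx with rfl | ⟨e, i, hi, rfl⟩
  · exact a2 v
  · exact (b4 e i hi).2

end Pool.Agent.Lib.DH7
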