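import Mathlib
import Pool.Agent.Lib.DH7.Main

set_option autoImplicit false

open Set Function unitInterval

namespace Pool.Agent.Lib.DH7

open Pool.Agent.Lib.MP_15a8b6_co

variable {V X : Type*}

/-- Contracting disjoint connected territories, keeping all other points. -/
theorem terr_contract [DecidableEq X] (P : Finset X → (X → X → Prop) → Prop)
    (contract : ∀ W R x y, P W R → x ∈ W → y ∈ W → x ≠ y → R x y →
      P (W.erase y) fun a b => ∃ a' ∈ W, ∃ b' ∈ W, R a' b' ∧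
        (if a' = y then x else a') = a ∧ (if b' = y then x else b') = b)
    {root : V → X} (n : ℕ) :
    ∀ W R (T : V → Set X), W.card < n → P W R → (∀ a b, R a b → R b a) → (∀ v, root v ∈ T v) →
      (∀ v, ∀ x ∈ T v, x ∈ W) → (∀ u v x, x ∈ T u → x ∈ T v → u = v) →
      (∀ v, ∀ x ∈ T v, ConnIn R (T v) (root v) x) →
      ∃ (W' : Finset X) (R' : X → X → Prop) (φ : X → X), P W' R' ∧ (∀ a b, R' a b → R' b a) ∧
        (∀ v, ∀ x ∈ T v, φ x = root v) ∧ (∀ x, (∀ v, x ∉ T v) → φ x = x) ∧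
        (∀ x ∈ W, φ x ∈ W') ∧ ∀ a ∈ W, ∀ b ∈ W, R a b → R' (φ a) (φ b) := by
  induction n with
  | zero => intro W R T h; omega
  | succ n ih =>
  intro W R T h1 h2 hs h3 h4 h5 h6
  by_cases h8 : ∃ v, ∃ y ∈ T v, y ≠ root v
  · obtain ⟨v, y0, hy0, hy0'⟩ := h8
    obtain ⟨y, hy, hy', hR⟩ := conn_first (h6 v y0 hy0) hy0'
    have hr : ∀ u, root u ≠ y := fun u e => hy' (by rw [← e, h5 u v _ (h3 u) (e ▸ hy)])
    have key : ∀ u, ∀ a ∈ T u, (if a = y then root v else a) ∈ T u \ {y} := by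
      intro u a ha
      split_ifs with h9
      · rw [h5 u v a ha (h9 ▸ hy)]
        exact ⟨h3 v, hr v⟩
      · exact ⟨ha, h9⟩
    have hW : ∀ a ∈ W, (if a = y then root v else a) ∈ W.erase y := by
      intro a ha
      split_ifs with h9
      · exact Finset.mem_erase.2 ⟨hr v, h4 v _ (h3 v)⟩
      · exact Finset.mem_erase.2 ⟨h9, ha⟩
    have := Finset.card_erase_lt_of_mem (h4 v y hy)
    obtain ⟨W', R', φ, a1, a2, a3, a4, a5, a6⟩ := ih _ _ (fun u => T u \ {y}) (by omega)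
      (contract W R (root v) y h2 (h4 v _ (h3 v)) (h4 v y hy) hy'.symm hR)
      (by
        rintro _ _ ⟨a, ha, b, hb, h, rfl, rfl⟩
        exact ⟨b, hb, a, ha, hs _ _ h, rfl, rfl⟩)
      (fun u => ⟨h3 u, hr u⟩) (fun u x hx => Finset.mem_erase.2 ⟨hx.2, h4 u x hx.1⟩)
      (fun u u' x a b => h5 u u' x a.1 b.1) (fun u x hx => by
        have h9 := (h6 u x hx.1).lift (fun w => if w = y then root v else w)
          (R' := fun a b => ∃ a' ∈ W, ∃ b' ∈ W, R a' b' ∧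
            (if a' = y then root v else a') = a ∧ (if b' = y then root v else b') = b)
          (T' := T u \ {y}) fun a b h ha hb => Relation.ReflTransGen.single
            ⟨⟨a, h4 u a ha, b, h4 u b hb, h, rfl, rfl⟩, key u a ha, key u b hb⟩
        rwa [if_neg (hr u), if_neg (show ¬ x = y from hx.2)] at h9)
    refine ⟨W', R', fun w => φ (if w = y then root v else w), a1, a2,
      fun u x hx => a3 u _ (key u x hx), fun x hx => ?_, fun x hx => a5 _ (hW x hx),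
      fun a ha b hb h => a6 _ (hW a ha) _ (hW b hb) ⟨a, ha, b, hb, h, rfl, rfl⟩⟩
    have h9 : x ≠ y := fun e => hx v (e ▸ hy)
    dsimp only
    rw [if_neg h9]
    exact a4 x fun u h => hx u h.1
  · push Not at h8
    exact ⟨W, R, id, h2, hs, fun v x hx => h8 v x hx, fun _ _ => rfl, fun _ h => h,
      fun _ _ _ _ h => h⟩

variable {G : SimpleGraph V} {S : Type*} [TopologicalSpace S]

/-- The planarisation of a drawing, with a monotone chain along every arc. -/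
theorem planarise_mono [Finite V] (D : Drawing G S) : ∃ (W : Finset S) (R : S → S → Prop),
    Emb S (G.edgeSet × I × I) W R ∧ (∀ v, D.pos v ∈ W) ∧ (∀ a b, R a b → R b a) ∧
      ∀ e, Relation.ReflTransGen (fun s t : I => s < t ∧ D.arc e s ∈ W ∧ D.arc e t ∈ W ∧
        R (D.arc e s) (D.arc e t)) 0 1 := by
  have hfin : (range D.pos ∪ ⋃ e, ⋃ f, ⋃ (_ : e ≠ f), range (D.arc e) ∩ range (D.arc f)).Finite :=
    (finite_range _).union (finite_iUnion fun e => finite_iUnion fun f => finite_iUnion fun h =>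
      D.finite_inter e f h)
  set W := hfin.toFinset with hW
  have hpos : ∀ v, D.pos v ∈ W := fun v => hfin.mem_toFinset.2 (Or.inl ⟨v, rfl⟩)
  have hcr : ∀ e f, e ≠ f → ∀ p ∈ range (D.arc e) ∩ range (D.arc f), p ∈ W := fun e f h p hp =>
    hfin.mem_toFinset.2 (Or.inr (mem_iUnion.2 ⟨e, mem_iUnion.2 ⟨f, mem_iUnion.2 ⟨h, hp⟩⟩⟩))
  have hT : ∀ e, (D.arc e ⁻¹' (W : Set S)).Finite := fun e =>
    W.finite_toSet.preimage (D.arc_inj e).injOn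
  set F : Set (G.edgeSet × I × I) := {g | D.arc g.1 g.2.1 ∈ W ∧ D.arc g.1 g.2.2 ∈ W ∧
    g.2.1 < g.2.2 ∧ ∀ r, D.arc g.1 r ∈ W → ¬ (g.2.1 < r ∧ r < g.2.2)} with hF
  refine ⟨W, fun a b => ∃ g ∈ F, s(D.arc g.1 g.2.1, D.arc g.1 g.2.2) = s(a, b),
    ⟨F, fun g => s(D.arc g.1 g.2.1, D.arc g.1 g.2.2), id, fun g => D.arc g.1 '' Icc g.2.1 g.2.2,
      ?_, ⟨injOn_id _, ?_, ?_, ?_⟩, fun _ _ _ _ _ h => h⟩, hpos, ?_, fun e => ?_⟩
  · refine (finite_iUnion fun e : G.edgeSet =>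
      (finite_singleton e).prod ((hT e).prod (hT e))).subset ?_
    rintro ⟨e, s, t⟩ h
    exact mem_iUnion.2 ⟨e, rfl, h.1, h.2.1⟩
  · rintro ⟨e, s, t⟩ ⟨h1, h2, h3, -⟩
    exact ⟨_, h1, _, h2, rfl, isArc_sub (⟨D.arc e, rfl, rfl⟩ : Path _ _) (D.arc_inj e) h3⟩
  · rintro ⟨e, s, t⟩ ⟨-, -, -, h4⟩ w hw ⟨r, hr, rfl⟩
    rcases eq_or_lt_of_le hr.1 with h5 | h5
    · simp [← h5]
    rcases eq_or_lt_of_le hr.2 with h6 | h6
    · simp [h6]
    exact absurd ⟨h5, h6⟩ (h4 r hw)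
  · rintro ⟨e, s, t⟩ ⟨h1, h2, -, h4⟩ ⟨f, s', t'⟩ ⟨h1', h2', -, h4'⟩ hne _
      ⟨⟨r, hr, rfl⟩, ⟨r', hr', h5⟩⟩
    refine ⟨_, ?_, rfl⟩
    by_cases hef : e = f
    · subst hef
      obtain rfl := D.arc_inj e h5
      by_contra hc
      have h6 : ∀ q, D.arc e q ∈ W → q ≠ r' := by
        rintro q hq rfl
        exact hc hq
      have a1 : s < r' := lt_of_le_of_ne hr.1 (h6 s h1)
      have a2 : r' < t := lt_of_le_of_ne hr.2 (h6 t h2).symm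
      have a3 : s' < r' := lt_of_le_of_ne hr'.1 (h6 s' h1')
      have a4 : r' < t' := lt_of_le_of_ne hr'.2 (h6 t' h2').symm
      apply hne
      rw [le_antisymm (not_lt.1 fun h : s' < s => h4' s h1 ⟨h, a1.trans a4⟩)
          (not_lt.1 fun h : s < s' => h4 s' h1' ⟨h, a3.trans a2⟩),
        le_antisymm (not_lt.1 fun h : t' < t => h4 t' h2' ⟨a1.trans a4, h⟩)
          (not_lt.1 fun h : t < t' => h4' t h2 ⟨a3.trans a2, h⟩)]
    · exact hcr e f hef _ ⟨⟨r, rfl⟩, ⟨r', h5⟩⟩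
  · rintro a b ⟨g, hg, h⟩
    exact ⟨g, hg, h.trans Sym2.eq_swap⟩
  · obtain ⟨u, v, -, h0, h1⟩ := D.ends e
    have key : ∀ t, Relation.ReflTransGen (fun s t => s ∈ D.arc e ⁻¹' (W : Set S) ∧
        t ∈ D.arc e ⁻¹' (W : Set S) ∧ s < t ∧ ∀ r ∈ D.arc e ⁻¹' (W : Set S), ¬ (s < r ∧ r < t))
        0 t → Relation.ReflTransGen (fun s t : I => s < t ∧ D.arc e s ∈ W ∧ D.arc e t ∈ W ∧
          ∃ g ∈ F, s(D.arc g.1 g.2.1, D.arc g.1 g.2.2) = s(D.arc e s, D.arc e t)) 0 t := by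
      intro t ht
      induction ht with
      | refl => exact .refl
      | tail _ h ih => exact ih.tail ⟨h.2.2.1, h.1, h.2.1, (e, _, _), h, rfl⟩
    exact key 1 (chain (hT e) (by simpa [h0] using hpos u) 1 (by simpa [h1] using hpos v))

/-- Cutting a monotone chain into an initial, a middle and a final part. -/
theorem chain_cut {R : X → X → Prop} (hR : ∀ a b, R a b → R b a) (γ : I → X) (W : Set X)
    (L U : I → Prop) (hL : ∀ s t, s < t → L t → L s) (hU : ∀ s t, s < t → U s → U t)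
    (hLU : ∀ s, L s → ¬ U s) (h0 : L 0) (hW : γ 0 ∈ W) {t : I}
    (h : Relation.ReflTransGen (fun s t : I => s < t ∧ γ s ∈ W ∧ γ t ∈ W ∧ R (γ s) (γ t)) 0 t) :
    ∃ x ∈ W, ConnIn R {x | x ∈ W ∧ ∃ r, L r ∧ γ r = x} (γ 0) x ∧ ((L t ∧ x = γ t) ∨
      (¬ L t ∧ ¬ U t ∧
        ConnIn R {z | z ∈ W ∧ (z = x ∨ ∃ r, ¬ L r ∧ ¬ U r ∧ γ r = z)} x (γ t)) ∨
      (U t ∧ ∃ y, ConnIn R {x | x ∈ W ∧ ∃ r, U r ∧ γ r = x} (γ t) y ∧
        ConnIn R {z | z ∈ W ∧ (z = y ∨ z = x ∨ ∃ r, ¬ L r ∧ ¬ U r ∧ γ r = z)} x y)) := by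
  induction h with
  | refl => exact ⟨_, hW, .refl, Or.inl ⟨h0, rfl⟩⟩
  | @tail s t _ h ih =>
    obtain ⟨h1, h2, h3, h4⟩ := h
    obtain ⟨x, hx, a1, a2⟩ := ih
    by_cases ht : L t
    · have hs := hL s t h1 ht
      rcases a2 with ⟨-, rfl⟩ | ⟨a2, -⟩ | ⟨a2, -⟩
      · exact ⟨_, h3, a1.tail ⟨h4, ⟨h2, s, hs, rfl⟩, ⟨h3, t, ht, rfl⟩⟩, Or.inl ⟨ht, rfl⟩⟩
      · exact absurd hs a2
      · exact absurd a2 (hLU s hs)
    refine ⟨x, hx, a1, Or.inr ?_⟩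
    by_cases ht' : U t
    · refine Or.inr ⟨ht', ?_⟩
      rcases a2 with ⟨-, rfl⟩ | ⟨a2, a3, a4⟩ | ⟨a2, y, a3, a4⟩
      · exact ⟨_, .refl, Relation.ReflTransGen.single
          ⟨h4, ⟨h2, Or.inr (Or.inl rfl)⟩, ⟨h3, Or.inl rfl⟩⟩⟩
      · refine ⟨_, .refl, Relation.ReflTransGen.tail (b := γ s) (a4.mono ?_)
          ⟨h4, ⟨h2, Or.inr (Or.inr ⟨s, a2, a3, rfl⟩)⟩, ⟨h3, Or.inl rfl⟩⟩⟩
        exact fun z hz => ⟨hz.1, Or.inr hz.2⟩
      · exact ⟨y, Relation.ReflTransGen.head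
          ⟨hR _ _ h4, ⟨h3, t, ht', rfl⟩, ⟨h2, s, a2, rfl⟩⟩ a3, a4⟩
    · refine Or.inl ⟨ht, ht', ?_⟩
      rcases a2 with ⟨-, rfl⟩ | ⟨a2, a3, a4⟩ | ⟨a2, -⟩
      · exact Relation.ReflTransGen.single
          ⟨h4, ⟨h2, Or.inl rfl⟩, ⟨h3, Or.inr ⟨t, ht, ht', rfl⟩⟩⟩
      · exact a4.tail ⟨h4, ⟨h2, Or.inr ⟨s, a2, a3, rfl⟩⟩, ⟨h3, Or.inr ⟨t, ht, ht', rfl⟩⟩⟩
      · exact absurd (hU s t h1 a2) ht'

end Pool.Agent.Lib.DH7
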