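import Mathlib
import Pool.Agent.Lib.DH7.Race

set_option autoImplicit false

open Finset Relation

namespace Pool.Agent.Lib.DH7

open Pool.Agent.Lib.MP_15a8b6_co

variable {V X κ : Type*}

/-- Two walks for every edge, one from each end; walks from different vertices only share a point
when these vertices are the two ends of one of the two edges. -/
structure Walks2 (root : V → X) (t : κ × Bool → V) (p : κ × Bool → ℕ → X) (k : κ × Bool → ℕ)
    (R : X → X → Prop) : Prop where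
  inj : Function.Injective root
  start : ∀ r, p r 0 = root (t r)
  step : ∀ r i, i < k r → R (p r i) (p r (i + 1))
  symm : ∀ a b, R a b → R b a
  roots : ∀ r i v, i ≤ k r → p r i = root v → v = t r
  pair : ∀ r s i j, i ≤ k r → j ≤ k s → p r i = p s j → t r ≠ t s →
    t (r.1, !r.2) = t s ∨ t (s.1, !s.2) = t r
  triple : ∀ r s g i j l, i ≤ k r → j ≤ k s → l ≤ k g → p r i = p s j → p r i = p g l →
    t r ≠ t s → t g = t r ∨ t g = t s

/-- The rule of the race with two runners on every edge. -/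
def Rule2 (t : κ × Bool → V) (p : κ × Bool → ℕ → X) (k : κ × Bool → ℕ)
    (key : κ × Bool → ℕ → ℕ) (pass : κ × Bool → ℕ → Prop) : Prop :=
  (∀ e, pass e 0) ∧ ∀ e i, pass e (i + 1) ↔ pass e i ∧ i < k e ∧
    ¬ ∃ f j, (p f (j + 1) = p e (i + 1) ∧ t f ≠ t e) ∧ key f (j + 1) < key e (i + 1) ∧
      pass f (j + 1)

/-- The two ends of the edge have adjacent territories, or both runners have arrived. -/
def Good (t : κ × Bool → V) (p : κ × Bool → ℕ → X) (k : κ × Bool → ℕ) (R : X → X → Prop)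
    (T : V → Set X) (e : κ) : Prop :=
  (∃ a ∈ T (t (e, false)), ∃ b ∈ T (t (e, true)), R a b) ∨
    ∀ s, p (e, s) (k (e, s)) ∈ T (t (e, s))

variable {root : V → X} {t : κ × Bool → V} {p : κ × Bool → ℕ → X} {k : κ × Bool → ℕ}
  {R : X → X → Prop} {key : κ × Bool → ℕ → ℕ} {pass : κ × Bool → ℕ → Prop}

theorem Rule2.le (h : Rule2 t p k key pass) {e : κ × Bool} {i : ℕ} (hi : pass e i) : i ≤ k e := by
  cases i with
  | zero => exact Nat.zero_le _
  | succ i => exact ((h.2 e i).1 hi).2.1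

theorem Rule2.disjoint (h : Rule2 t p k key pass) (w : Walks2 root t p k R)
    (hkey : ∀ e f i j, key e i = key f j → e = f) {u v : V} {x : X}
    (hu : x ∈ Terr root t p pass u) (hv : x ∈ Terr root t p pass v) : u = v := by
  rcases hu with rfl | ⟨e, i, h1, rfl, rfl⟩
  · rcases hv with hv | ⟨f, j, h2, rfl, h3⟩
    · exact w.inj hv
    · exact w.roots f j _ (h.le h2) h3
  rcases hv with hv | ⟨f, j, h2, rfl, h3⟩
  · exact (w.roots e i _ (h.le h1) hv).symm
  by_contra hne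
  cases i with
  | zero => exact hne (w.roots f j _ (h.le h2) (h3.trans (w.start e)))
  | succ i =>
  cases j with
  | zero => exact hne (w.roots e _ _ (h.le h1) (h3.symm.trans (w.start f))).symm
  | succ j =>
  rcases lt_trichotomy (key f (j + 1)) (key e (i + 1)) with h4 | h4 | h4
  · exact ((h.2 e i).1 h1).2.2 ⟨f, j, ⟨h3, Ne.symm hne⟩, h4, h2⟩
  · exact hne (by rw [hkey _ _ _ _ h4])
  · exact ((h.2 f j).1 h2).2.2 ⟨e, i, ⟨h3.symm, hne⟩, h4, h1⟩

theorem Rule2.conn (h : Rule2 t p k key pass) (w : Walks2 root t p k R) {v : V} {x : X}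
    (hx : x ∈ Terr root t p pass v) : ConnIn R (Terr root t p pass v) (root v) x := by
  rcases hx with rfl | ⟨e, i, h1, rfl, rfl⟩
  · exact .refl
  induction i with
  | zero => rw [w.start]; exact .refl
  | succ i ih =>
    have h2 := (h.2 e i).1 h1
    exact (ih h2.1).tail ⟨w.step e i h2.2.1, Or.inr ⟨e, i, h2.1, rfl, rfl⟩,
      Or.inr ⟨e, i + 1, h1, rfl, rfl⟩⟩

theorem sat_of (hR : ∀ a b, R a b → R b a) (T : V → Set X) (r : κ × Bool)
    (h : ∃ a ∈ T (t r), ∃ b ∈ T (t (r.1, !r.2)), R a b) :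
    ∃ a ∈ T (t (r.1, false)), ∃ b ∈ T (t (r.1, true)), R a b := by
  obtain ⟨e, s⟩ := r
  cases s
  · exact h
  · obtain ⟨a, ha, b, hb, hab⟩ := h
    exact ⟨b, hb, a, ha, hR _ _ hab⟩

/-- The first contact satisfies one edge, for all nearby delays. -/
theorem first_contact2 [Nonempty κ] (w : Walks2 root t p k R) (σ : Set (κ → ℕ)) (δ : ℕ)
    (hσ : ∀ d ∈ σ, ∀ d' ∈ σ, ∀ e, d e ≤ d' e + δ) {d0 : κ → ℕ} (hd0 : d0 ∈ σ)
    (key : (κ → ℕ) → κ × Bool → ℕ → ℕ) (hkey : ∀ d e f i j, key d f j < key d e i →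
      d f.1 + (2 * δ + 1) * j ≤ d e.1 + (2 * δ + 1) * i)
    (pass : (κ → ℕ) → κ × Bool → ℕ → Prop) (hp : ∀ d, Rule2 t p k (key d) (pass d)) :
    ∃ h, (∀ d ∈ σ, Good t p k R (Terr root t p (pass d)) h) ∧
      ∀ e, d0 h ≤ d0 e + (2 * δ + 1) * (k (e, false) + k (e, true)) := by
  obtain ⟨M, hM⟩ : ∃ M, M = 2 * δ + 1 := ⟨_, rfl⟩
  rw [← hM] at hkey ⊢
  let Ev : κ × Bool → ℕ → Prop := fun e i => (i = k e ∧ k (e.1, !e.2) ≤ i) ∨ (i < k e ∧ ∃ f j,
    j < k f ∧ p f (j + 1) = p e (i + 1) ∧ t f ≠ t e ∧ d0 f.1 + M * j ≤ d0 e.1 + M * i)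
  have hlast : ∀ e, ∃ s i, i ≤ k (e, false) + k (e, true) ∧ Ev (e, s) i := fun e => by
    rcases le_total (k (e, false)) (k (e, true)) with h | h
    · exact ⟨true, _, by omega, Or.inl ⟨rfl, h⟩⟩
    · exact ⟨false, _, by omega, Or.inl ⟨rfl, h⟩⟩
  obtain ⟨⟨e, i⟩, hev, hmin⟩ := (InvImage.wf (fun a : (κ × Bool) × ℕ => d0 a.1.1 + M * a.2)
    Nat.lt_wfRel.wf).has_min {a | Ev a.1 a.2} (by
      obtain ⟨e⟩ := ‹Nonempty κ›
      obtain ⟨s, i, -, hi⟩ := hlast e
      exact ⟨((e, s), i), hi⟩)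
  have hmin' : ∀ g l, Ev g l → d0 e.1 + M * i ≤ d0 g.1 + M * l := fun g l h =>
    not_lt.1 (hmin (g, l) h)
  have hbound : ∀ g, d0 e.1 + M * i ≤ d0 g + M * (k (g, false) + k (g, true)) := fun g => by
    obtain ⟨s, l, h1, h2⟩ := hlast g
    have h3 := hmin' (g, s) l h2
    have h4 := Nat.mul_le_mul_left M h1
    dsimp only at h3
    omega
  have hpass : ∀ d ∈ σ, ∀ g l, l ≤ k g → d0 g.1 + M * l ≤ d0 e.1 + M * i → pass d g l := by
    intro d hd' g l
    induction l with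
    | zero => exact fun _ _ => (hp d).1 g
    | succ l ih =>
      intro h1 h2
      rw [mul_add, mul_one] at h2
      refine ((hp d).2 g l).2 ⟨ih (by omega) (by omega), h1, ?_⟩
      rintro ⟨f, j, ⟨h3, h4⟩, h5, h6⟩
      have h7 := hkey d _ _ _ _ h5
      rw [mul_add, mul_add, mul_one] at h7
      have h8 := hσ d0 hd0 d hd' f.1
      have h9 := hσ d hd' d0 hd0 g.1
      have h10 : j < k f := (hp d).le h6
      by_cases h11 : d0 f.1 + M * j ≤ d0 g.1 + M * l
      · have := hmin' g l (Or.inr ⟨h1, f, j, h10, h3, h4, h11⟩)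
        omega
      · have := hmin' f j (Or.inr ⟨h10, g, l, h1, h3.symm, h4.symm, by omega⟩)
        omega
  rcases hev with ⟨h1, h2⟩ | ⟨h2, f, j, h3, h4, h5, h6⟩
  · dsimp only at h1 h2
    refine ⟨e.1, fun d hd' => ?_, fun e' => ?_⟩
    · have h3 : ∀ s, pass d (e.1, s) (k (e.1, s)) := fun s => by
        refine hpass d hd' (e.1, s) _ le_rfl (Nat.add_le_add_left (Nat.mul_le_mul_left M ?_) _)
        by_cases h4 : s = e.2
        · rw [h4, h1]
        · rw [Bool.eq_not_iff.2 h4]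
          exact h2
      exact Or.inr fun s => Or.inr ⟨_, _, h3 s, rfl, rfl⟩
    · have := hbound e'
      omega
  dsimp only at h2 h3 h4 h5 h6
  have h9 : ∀ d ∈ σ, ∃ a ∈ Terr root t p (pass d) (t e), ∃ b ∈ Terr root t p (pass d) (t f),
      R a b := by
    intro d hd'
    have a1 := hpass d hd' e i h2.le le_rfl
    have a2 := hpass d hd' f j h3.le h6
    by_cases a3 : pass d e (i + 1)
    · exact ⟨_, Or.inr ⟨e, i + 1, a3, rfl, rfl⟩, _, Or.inr ⟨f, j, a2, rfl, rfl⟩,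
        w.symm _ _ (h4 ▸ w.step f j h3)⟩
    · obtain ⟨g, l, ⟨a4, a5⟩, -, a6⟩ : ∃ g l, (p g (l + 1) = p e (i + 1) ∧ t g ≠ t e) ∧
          key d g (l + 1) < key d e (i + 1) ∧ pass d g (l + 1) := by
        by_contra a4
        exact a3 (((hp d).2 e i).2 ⟨a1, h2, a4⟩)
      have a7 := (w.triple e f g (i + 1) (j + 1) (l + 1) h2 h3 ((hp d).le a6) h4.symm a4.symm
        h5.symm).resolve_left a5
      exact ⟨_, Or.inr ⟨e, i, a1, rfl, rfl⟩, _, Or.inr ⟨g, l + 1, a6, a7, a4⟩, w.step e i h2⟩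
  rcases w.pair e f (i + 1) (j + 1) h2 h3 h4.symm h5.symm with a1 | a1
  · refine ⟨e.1, fun d hd' => Or.inl (sat_of w.symm _ e (a1 ▸ h9 d hd')), fun e' => ?_⟩
    have := hbound e'
    omega
  · refine ⟨f.1, fun d hd' => Or.inl (sat_of w.symm _ f ?_), fun e' => ?_⟩
    · obtain ⟨a, ha, b, hb, hab⟩ := h9 d hd'
      exact ⟨b, hb, a, a1 ▸ ha, w.symm _ _ hab⟩
    · have := hbound e'
      omega

/-- For suitable delays every edge is good. -/
theorem race2 [Finite κ] (w : Walks2 root t p k R) : ∃ T : V → Set X, (∀ v, root v ∈ T v) ∧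
    (∀ u v x, x ∈ T u → x ∈ T v → u = v) ∧ (∀ v, ∀ x ∈ T v, ConnIn R (T v) (root v) x) ∧
    (∀ v, ∀ x ∈ T v, x = root v ∨ ∃ e i, i ≤ k e ∧ t e = v ∧ p e i = x) ∧
    ∀ e, Good t p k R T e := by
  classical
  have := Fintype.ofFinite κ
  rcases isEmpty_or_nonempty κ with hι | hι
  · exact ⟨fun v => {root v}, fun v => rfl, fun u v x h1 h2 => w.inj (h1.symm.trans h2),
      fun v x hx => hx ▸ .refl, fun v x hx => Or.inl hx, fun e => (hι.false e).elim⟩
  obtain ⟨n, hn⟩ : ∃ n, n = Fintype.card κ := ⟨_, rfl⟩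
  obtain ⟨N, hN⟩ : ∃ N, N = Fintype.card (κ × Bool) := ⟨_, rfl⟩
  have hN0 : 0 < N := hN ▸ Fintype.card_pos
  let idx : κ × Bool → ℕ := fun e => (Fintype.equivFin (κ × Bool) e : ℕ)
  have hidx : ∀ e, idx e < N := fun e => hN ▸ (Fintype.equivFin (κ × Bool) e).2
  have hinj : Function.Injective idx := fun x y e =>
    (Fintype.equivFin (κ × Bool)).injective (Fin.ext e)
  let key : (κ → ℕ) → κ × Bool → ℕ → ℕ := fun d e i => (d e.1 + (2 * n + 1) * i) * N + idx e
  have hk1 : ∀ d e i, key d e i < key d e (i + 1) := fun d e i => by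
    simp only [key]
    nlinarith
  have hk2 : ∀ d e f i j, key d f j < key d e i →
      d f.1 + (2 * n + 1) * j ≤ d e.1 + (2 * n + 1) * i := fun d e f i j h => by
    by_contra h1
    have h2 := Nat.mul_le_mul_right N (Nat.succ_le_of_lt (not_le.1 h1))
    have h3 := hidx e
    simp only [key] at h
    rw [Nat.succ_mul] at h2
    omega
  have hk3 : ∀ d e f i j, key d e i = key d f j → e = f := fun d e f i j h => by
    have h1 := congrArg (· % N) h
    simp only [key, Nat.mul_add_mod_self_right] at h1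
    rw [Nat.mod_eq_of_lt (hidx e), Nat.mod_eq_of_lt (hidx f)] at h1
    exact hinj h1
  choose pass hp1 hp2 using fun d => exists_pass (key d) (hk1 d) (fun e i => i < k e)
    (fun e i f j => p f (j + 1) = p e (i + 1) ∧ t f ≠ t e)
  have hp : ∀ d, Rule2 t p k (key d) (pass d) := fun d => ⟨hp1 d, hp2 d⟩
  suffices h : ∃ d, ∀ e, Good t p k R (Terr root t p (pass d)) e by
    obtain ⟨d, hd'⟩ := h
    refine ⟨Terr root t p (pass d), fun v => Or.inl rfl, fun u v x => (hp d).disjoint w (hk3 d),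
      fun v x hx => (hp d).conn w hx, ?_, hd'⟩
    rintro v x (h | ⟨e, i, h1, h3, h2⟩)
    · exact Or.inl h
    · exact Or.inr ⟨e, i, (hp d).le h1, h3, h2⟩
  by_contra hno
  obtain ⟨lab, hlab⟩ : ∃ lab : (κ → ℕ) → κ, ∀ d,
      ¬ Good t p k R (Terr root t p (pass d)) (lab d) := by
    have : ∀ d, ∃ e, ¬ Good t p k R (Terr root t p (pass d)) e :=
      fun d => not_forall.1 fun h => hno ⟨d, h⟩
    exact ⟨fun d => (this d).choose, fun d => (this d).choose_spec⟩
  obtain ⟨K, hK⟩ : ∃ K, ∀ e, (2 * n + 1) * (k (e, false) + k (e, true)) ≤ K :=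
    ⟨∑ e, (2 * n + 1) * (k (e, false) + k (e, true)), fun e => single_le_sum
      (f := fun e => (2 * n + 1) * (k (e, false) + k (e, true)))
      (fun _ _ => Nat.zero_le _) (mem_univ e)⟩
  obtain ⟨L, hL⟩ : ∃ L, L = n * (n + K + 1) := ⟨_, rfl⟩
  obtain ⟨σ, x0, h1, h2, h3, h4, h5⟩ := grid L fun x => lab fun e => L - x e
  rw [← hn] at h3 h4 h5
  obtain ⟨e, he⟩ : ∃ e, n + K ≤ x0 e := by
    by_contra h6
    push Not at h6
    have h7 : ∑ i, x0 i ≤ ∑ _i : κ, (n + K) := sum_le_sum fun i _ => (h6 i).le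
    rw [sum_const, card_univ, smul_eq_mul, ← hn] at h7
    rw [hL, mul_add, mul_one] at h4
    omega
  obtain ⟨h, h6, h7⟩ := first_contact2 w ((fun x e => L - x e) '' σ) n (by
    rintro _ ⟨x, hx, rfl⟩ _ ⟨x', hx', rfl⟩ i
    have := h3 x' hx' x hx i
    dsimp only
    omega) ⟨x0, h1, rfl⟩ key hk2 pass hp
  have h8 := h7 e
  have h9 := hK e
  have h10 := h2 x0 h1 e
  have h11 := h2 x0 h1 h
  dsimp only at h8
  obtain ⟨x, hx, hx'⟩ := h5 h (by omega)
  exact hlab _ (hx' ▸ h6 _ ⟨x, hx, rfl⟩)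

end Pool.Agent.Lib.DH7
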