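import Mathlib
import Pool.Agent.Lib.DH7.Race2
import Pool.Agent.Lib.DH7.Plan2

set_option autoImplicit false

open Set Function unitInterval

namespace Pool.Agent.Lib.DH7

open Pool.Agent.Lib.MP_15a8b6_co

variable {V : Type*} {G : SimpleGraph V} {S : Type*} [TopologicalSpace S]

/-- A colouring of points that agrees with the orientation of all edges of a family. -/
theorem exists_colour [Nonempty V] (c : G.edgeSet → Bool → V)
    (hc : ∀ e : G.edgeSet, (e : Sym2 V) = s(c e false, c e true)) (M : Set G.edgeSet)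
    (hm : ∀ e ∈ M, ∀ f ∈ M, ∃ b, c e b = c f b) :
    ∃ k : V × Bool, ∀ e ∈ M, ∃ b, k = (c e b, b) := by
  by_cases h1 : ∃ e ∈ M, ∃ f ∈ M, e ≠ f
  · obtain ⟨e, he, f, hf, hef⟩ := h1
    obtain ⟨b, hb⟩ := hm e he f hf
    refine ⟨(c e b, b), fun g hg => ⟨b, ?_⟩⟩
    by_contra hne
    have h2 : c e b ≠ c g b := fun h => hne (by rw [h])
    obtain ⟨b1, h3⟩ := hm e he g hg
    obtain ⟨b2, h4⟩ := hm f hf g hg
    have h5 : b1 = !b := Bool.eq_not_iff.2 (by rintro rfl; exact h2 h3)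
    have h6 : b2 = !b := Bool.eq_not_iff.2 (by rintro rfl; exact h2 (hb.trans h4))
    subst h5 h6
    apply hef
    apply Subtype.ext
    rw [hc e, hc f]
    have h7 := h3.trans h4.symm
    cases b
    · exact congrArg₂ (fun a b => s(a, b)) hb h7
    · exact congrArg₂ (fun a b => s(a, b)) h7 hb
  push Not at h1
  by_cases h2 : ∃ e, e ∈ M
  · obtain ⟨e, he⟩ := h2
    exact ⟨(c e true, true), fun g hg => ⟨true, by rw [h1 e he g hg]⟩⟩
  · exact ⟨(‹Nonempty V›.some, true), fun g hg => absurd ⟨g, hg⟩ h2⟩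

theorem three_parts [Finite V] [T2Space S] [ChartedSpace (EuclideanSpace ℝ (Fin 2)) S]
    (D : Drawing G S) (a b : G.edgeSet → I) (hab : ∀ e, a e ≤ b e)
    (head : G.edgeSet → V) (hhead : ∀ e : G.edgeSet, head e ∈ (e : Sym2 V))
    (h2 : ∀ (e f : G.edgeSet) (s t : I), e ≠ f → D.arc e s = D.arc f t →
      D.arc e s ∉ range D.pos → ∃ v, v ∈ (e : Sym2 V) ∧ v ∈ (f : Sym2 V) ∧
        ((s ≤ a e ∧ D.pos v = D.arc e 0 ∨ b e < s ∧ D.pos v = D.arc e 1) ∨
          (t ≤ a f ∧ D.pos v = D.arc f 0 ∨ b f < t ∧ D.pos v = D.arc f 1) ∨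
          (a e < s ∧ s ≤ b e ∧ a f < t ∧ t ≤ b f ∧ (head e = v ↔ head f = v))))
    (h3 : ∀ (e f g : G.edgeSet) (s t r : I), D.arc e s = D.arc f t → D.arc e s = D.arc g r →
      D.arc e s ∉ range D.pos → (s ≤ a e ∨ b e < s) → (t ≤ a f ∨ b f < t) →
      (r ≤ a g ∨ b g < r) → ∃ v, v ∈ (e : Sym2 V) ∧ v ∈ (f : Sym2 V) ∧ v ∈ (g : Sym2 V)) :
    ∃ D' : Drawing G S, ∀ e f, e ≠ f → ¬ D'.Meet e f := by
  classical
  have := Fintype.ofFinite V
  rcases isEmpty_or_nonempty V with hV | hV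
  · exact ⟨D, fun e => (hV.false (head e)).elim⟩
  obtain ⟨c, hc, hc'⟩ : ∃ c : G.edgeSet → Bool → V,
      (∀ e : G.edgeSet, (e : Sym2 V) = s(c e false, c e true)) ∧ ∀ e, c e true = head e :=
    ⟨fun e b => if b then head e else Sym2.Mem.other (hhead e),
      fun e => by simp [Sym2.eq_swap], fun e => by simp⟩
  obtain ⟨t, ht, ht0, ht1⟩ : ∃ t : G.edgeSet × Bool → V,
      (∀ e : G.edgeSet, (e : Sym2 V) = s(t (e, false), t (e, true))) ∧
      (∀ e, D.arc e 0 = D.pos (t (e, false))) ∧ ∀ e, D.arc e 1 = D.pos (t (e, true)) := by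
    choose u v h4 h5 h6 using D.ends
    exact ⟨fun r => if r.2 then v r.1 else u r.1, fun e => by simpa using h4 e,
      fun e => by simpa using h5 e, fun e => by simpa using h6 e⟩
  have htm : ∀ r : G.edgeSet × Bool, t r ∈ (r.1 : Sym2 V) := by
    rintro ⟨e, s⟩
    rw [ht e]
    cases s <;> simp
  have hto : ∀ (r : G.edgeSet × Bool) v, v ∈ (r.1 : Sym2 V) → t r ≠ v → t (r.1, !r.2) = v := by
    rintro ⟨e, s⟩ v hv hne
    rw [ht e, Sym2.mem_iff] at hv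
    cases s
    · exact (hv.resolve_left hne.symm).symm
    · exact (hv.resolve_right hne.symm).symm
  obtain ⟨Sd, hS0, hS1⟩ : ∃ Sd : G.edgeSet × Bool → I → Prop,
      (∀ e s, Sd (e, false) s ↔ s ≤ a e ∧ s ≠ 1) ∧ ∀ e s, Sd (e, true) s ↔ b e < s ∨ s = 1 :=
    ⟨fun r s => if r.2 then b r.1 < s ∨ s = 1 else s ≤ a r.1 ∧ s ≠ 1, by simp, by simp⟩
  have hdis : ∀ e s, Sd (e, false) s → ¬ Sd (e, true) s := fun e s h h' => by
    rw [hS0] at h
    rcases (hS1 e s).1 h' with h4 | h4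
    · exact absurd (h.1.trans (hab e)) (not_le.2 h4)
    · exact h.2 h4
  have hsame : ∀ e x y s, Sd (e, x) s → Sd (e, y) s → x = y := by
    intro e x y s h h'
    cases x <;> cases y
    · rfl
    · exact absurd h' (hdis e s h)
    · exact absurd h (hdis e s h')
    · rfl
  have hS00 : ∀ e, Sd (e, false) 0 := fun e => (hS0 e 0).2 ⟨(a e).2.1, zero_ne_one⟩
  have hS11 : ∀ e, Sd (e, true) 1 := fun e => (hS1 e 1).2 (Or.inr rfl)
  have hroot : ∀ (r : G.edgeSet × Bool) s v, Sd r s → D.arc r.1 s = D.pos v → v = t r := by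
    rintro ⟨e, x⟩ s v h h'
    rcases D.avoid e s v h' with rfl | rfl
    · rw [hsame e x false 0 h (hS00 e)]
      exact D.pos_inj (h'.symm.trans (ht0 e))
    · rw [hsame e x true 1 h (hS11 e)]
      exact D.pos_inj (h'.symm.trans (ht1 e))
  have hown : ∀ (r : G.edgeSet × Bool) s, Sd r s → D.arc r.1 s ∉ range D.pos →
      s ≤ a r.1 ∨ b r.1 < s := by
    rintro ⟨e, x⟩ s h h'
    cases x
    · exact Or.inl ((hS0 e s).1 h).1
    · refine Or.inr (((hS1 e s).1 h).resolve_right ?_)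
      rintro rfl
      exact h' ⟨_, (ht1 e).symm⟩
  have hnear : ∀ e s v, D.arc e s ∉ range D.pos →
      (s ≤ a e ∧ D.pos v = D.arc e 0 ∨ b e < s ∧ D.pos v = D.arc e 1) →
      ∃ x, Sd (e, x) s ∧ t (e, x) = v := by
    rintro e s v h (⟨h4, h5⟩ | ⟨h4, h5⟩)
    · refine ⟨false, (hS0 e s).2 ⟨h4, ?_⟩, (D.pos_inj (h5.trans (ht0 e))).symm⟩
      rintro rfl
      exact h ⟨_, (ht1 e).symm⟩
    · exact ⟨true, (hS1 e s).2 (Or.inl h4), (D.pos_inj (h5.trans (ht1 e))).symm⟩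
  have hN : ∀ (r : G.edgeSet × Bool) (f : G.edgeSet) s s', r.1 ≠ f → Sd r s →
      D.arc r.1 s = D.arc f s' → D.arc r.1 s ∉ range D.pos → ∃ v, v ∈ (r.1 : Sym2 V) ∧
      v ∈ (f : Sym2 V) ∧ (t r = v ∨ ∃ y, Sd (f, y) s' ∧ t (f, y) = v) := by
    rintro ⟨e, x⟩ f s s' hef hs h4 h5
    obtain ⟨v, v1, v2, v3 | v3 | v3⟩ := h2 e f s s' hef h4 h5
    · obtain ⟨y, h6, h7⟩ := hnear e s v h5 v3
      exact ⟨v, v1, v2, Or.inl (hsame e y x s h6 hs ▸ h7)⟩
    · exact ⟨v, v1, v2, Or.inr (hnear f s' v (h4 ▸ h5) v3)⟩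
    · rcases hown (e, x) s hs h5 with h6 | h6
      · exact absurd v3.1 (not_lt.2 h6)
      · exact absurd h6 (not_lt.2 v3.2.1)
  have hN' : ∀ (r r' : G.edgeSet × Bool) s s' v, r.1 ≠ r'.1 → Sd r s → Sd r' s' →
      D.arc r.1 s = D.arc r'.1 s' → D.arc r.1 s ∉ range D.pos → v ∈ (r.1 : Sym2 V) →
      v ∈ (r'.1 : Sym2 V) → t r = v ∨ t r' = v := by
    rintro r ⟨f, y⟩ s s' v hef hs hs' h4 h5 v1 v2
    obtain ⟨w, w1, w2, w3⟩ := hN r f s s' hef hs h4 h5
    obtain rfl : w = v := by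
      by_contra hne
      exact hef (Subtype.ext (Sym2.eq_of_ne_mem hne w1 v1 w2 v2))
    refine w3.imp_right ?_
    rintro ⟨y', h6, h7⟩
    exact hsame f y' y s' h6 hs' ▸ h7
  have heq : ∀ (r r' : G.edgeSet × Bool) s s', Sd r s → Sd r' s' →
      D.arc r.1 s = D.arc r'.1 s' → r.1 = r'.1 → r = r' := by
    rintro ⟨e, x⟩ ⟨f, y⟩ s s' hs hs' h4 h5
    obtain rfl : e = f := h5
    obtain rfl : s = s' := D.arc_inj e h4
    rw [hsame e x y s hs hs']
  have hstar : ∀ (r r' g : G.edgeSet × Bool) s s' s'', Sd r s → Sd r' s' → Sd g s'' →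
      D.arc r.1 s = D.arc r'.1 s' → D.arc r.1 s = D.arc g.1 s'' → t r ≠ t r' →
      (t (r.1, !r.2) = t r' ∨ t (r'.1, !r'.2) = t r) ∧ (t g = t r ∨ t g = t r') := by
    intro r r' g s s' s'' hs hs' hs'' h4 h5 hne
    have hx : D.arc r.1 s ∉ range D.pos := by
      rintro ⟨v, hv⟩
      exact hne ((hroot r s v hs hv.symm).symm.trans (hroot r' s' v hs' (h4 ▸ hv.symm)))
    have hef : r.1 ≠ r'.1 := fun h => hne (by rw [heq r r' s s' hs hs' h4 h])
    obtain ⟨v, v1, v2, v3⟩ := h3 r.1 r'.1 g.1 s s' s'' h4 h5 hx (hown r s hs hx)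
      (hown r' s' hs' (h4 ▸ hx)) (hown g s'' hs'' (h5 ▸ hx))
    rcases hN' r r' s s' v hef hs hs' h4 hx v1 v2 with h6 | h6
    · have h7 : t r' ≠ v := fun h => hne (h6.trans h.symm)
      refine ⟨Or.inr ((hto r' v v2 h7).trans h6.symm), ?_⟩
      by_cases h8 : g.1 = r'.1
      · exact Or.inr (by rw [heq g r' s'' s' hs'' hs' (h5.symm.trans h4) h8])
      · exact Or.inl (((hN' g r' s'' s' v h8 hs'' hs' (h5.symm.trans h4) (h5 ▸ hx) v3
          v2).resolve_right h7).trans h6.symm)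
    · have h7 : t r ≠ v := fun h => hne (h.trans h6.symm)
      refine ⟨Or.inl ((hto r v v1 h7).trans h6.symm), ?_⟩
      by_cases h8 : g.1 = r.1
      · exact Or.inl (by rw [heq g r s'' s hs'' hs h5.symm h8])
      · exact Or.inr (((hN' g r s'' s v h8 hs'' hs h5.symm (h5 ▸ hx) v3
          v1).resolve_right h7).trans h6.symm)
  obtain ⟨W, R, a1, a2, a3, a4⟩ := planarise_mono D
  have hz : ∀ e : G.edgeSet, ∃ z : Bool → S, (∀ x, ConnIn R
      {q | q ∈ (W : Set S) ∧ ∃ s, Sd (e, x) s ∧ D.arc e s = q} (D.pos (t (e, x))) (z x)) ∧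
      ConnIn R {q | q ∈ (W : Set S) ∧ (q = z true ∨ q = z false ∨
        ∃ s, ¬ Sd (e, false) s ∧ ¬ Sd (e, true) s ∧ D.arc e s = q)} (z false) (z true) := by
    intro e
    obtain ⟨x, -, h4, h5 | h5 | ⟨-, y, h5, h6⟩⟩ := chain_cut a3 (D.arc e) (W : Set S)
      (Sd (e, false)) (Sd (e, true))
      (fun s s' h h' => (hS0 e s).2 ⟨h.le.trans ((hS0 e s').1 h').1,
        ne_of_lt (h.trans_le s'.2.2)⟩)
      (fun s s' h h' => (hS1 e s').2 (Or.inl (((hS1 e s).1 h').elim (fun h4 => h4.trans h)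
        fun h4 => absurd h4 (ne_of_lt (h.trans_le s'.2.2)))))
      (hdis e) (hS00 e) (ht0 e ▸ a2 _) (a4 e)
    · exact absurd (hS11 e) (hdis e 1 h5.1)
    · exact absurd (hS11 e) h5.2.1
    refine ⟨fun u => if u then y else x, fun u => ?_, by simpa using h6⟩
    cases u
    · simpa [ht0 e] using h4
    · simpa [ht1 e] using h5
  choose z hz1 hz2 using hz
  have hwalk : ∀ r : G.edgeSet × Bool, ∃ (p : ℕ → S) (k : ℕ), p 0 = D.pos (t r) ∧
      p k = z r.1 r.2 ∧ (∀ i, i < k → R (p i) (p (i + 1))) ∧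
      ∀ i, i ≤ k → p i ∈ {q | q ∈ (W : Set S) ∧ ∃ s, Sd r s ∧ D.arc r.1 s = q} := by
    rintro ⟨e, x⟩
    refine conn_walk (hz1 e x) ⟨a2 _, ?_⟩
    cases x
    · exact ⟨0, hS00 e, ht0 e⟩
    · exact ⟨1, hS11 e, ht1 e⟩
  choose p k b1 b2 b3 b4 using hwalk
  have w : Walks2 D.pos t p k R := by
    refine ⟨D.pos_inj, b1, b3, a3, fun r i v hi hv => ?_, fun r r' i j hi hj h hne => ?_,
      fun r r' g i j l hi hj hl h h' hne => ?_⟩
    · obtain ⟨-, s, h4, h5⟩ := b4 r i hi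
      exact hroot r s v h4 (h5.trans hv)
    · obtain ⟨-, s, h4, h5⟩ := b4 r i hi
      obtain ⟨-, s', h6, h7⟩ := b4 r' j hj
      exact (hstar r r' r s s' s h4 h6 h4 (h5.trans (h.trans h7.symm)) rfl hne).1
    · obtain ⟨-, s, h4, h5⟩ := b4 r i hi
      obtain ⟨-, s', h6, h7⟩ := b4 r' j hj
      obtain ⟨-, s'', h8, h9⟩ := b4 g l hl
      exact (hstar r r' g s s' s'' h4 h6 h8 (h5.trans (h.trans h7.symm))
        (h5.trans (h'.trans h9.symm)) hne).2
  obtain ⟨T, t1, t2, t3, t4, t5⟩ := race2 w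
  have hTW : ∀ v, ∀ x ∈ T v, x ∈ W := fun v x hx => by
    rcases t4 v x hx with rfl | ⟨e, i, hi, -, rfl⟩
    · exact a2 v
    · exact (b4 e i hi).1
  have hcon : ∀ W R x y, Emb S (G.edgeSet × I × I) W R → x ∈ W → y ∈ W → x ≠ y → R x y →
      Emb S (G.edgeSet × I × I) (W.erase y) fun a b : S => ∃ a' ∈ W, ∃ b' ∈ W, R a' b' ∧
        (if a' = y then x else a') = a ∧ (if b' = y then x else b') = b :=
    fun _ _ _ _ h => h.contract fun _ _ hO hp => exists_disc (E := EuclideanSpace ℝ (Fin 2)) hO hp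
  obtain ⟨W', R', φ, c1, c2, c3, c4, c5, c6⟩ := terr_contract (Emb S (G.edgeSet × I × I)) hcon _
    W R T (Nat.lt_succ_self _) a1 a3 t1 hTW t2 t3
  have hmid : ∀ e s, ¬ Sd (e, false) s → ¬ Sd (e, true) s → D.arc e s ∉ range D.pos := by
    rintro e s h4 h5 ⟨v, hv⟩
    rcases D.avoid e s v hv.symm with rfl | rfl
    · exact h4 (hS00 e)
    · exact h5 (hS11 e)
  have hno : ∀ e s y, ¬ Sd (e, false) s → ¬ Sd (e, true) s → ¬ Sd (e, y) s := by
    intro e s y h4 h5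
    cases y
    · exact h4
    · exact h5
  have hcol : ∀ q : S, ∃ k : V × Bool, ∀ e ∈ {e : G.edgeSet |
      ∃ s, ¬ Sd (e, false) s ∧ ¬ Sd (e, true) s ∧ D.arc e s = q}, ∃ b, k = (c e b, b) := by
    intro q
    refine exists_colour c hc _ ?_
    rintro e ⟨s, h4, h5, h6⟩ f ⟨s', h7, h8, h9⟩
    by_cases hef : e = f
    · exact ⟨true, by rw [hef]⟩
    obtain ⟨v, v1, v2, v3 | v3 | v3⟩ := h2 e f s s' hef (h6.trans h9.symm) (hmid e s h4 h5)
    · obtain ⟨y, h10, -⟩ := hnear e s v (hmid e s h4 h5) v3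
      exact absurd h10 (hno e s y h4 h5)
    · obtain ⟨y, h10, -⟩ := hnear f s' v (hmid f s' h7 h8) v3
      exact absurd h10 (hno f s' y h7 h8)
    have v4 := v3.2.2.2.2
    rw [hc e, Sym2.mem_iff] at v1
    rw [hc f, Sym2.mem_iff] at v2
    rw [← hc' e, ← hc' f] at v4
    by_cases h10 : c e true = v
    · exact ⟨true, h10.trans (v4.1 h10).symm⟩
    · exact ⟨false, (v1.resolve_right (Ne.symm h10)).symm.trans
        (v2.resolve_right fun h11 => h10 (v4.2 h11.symm))⟩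
  choose col hcol using hcol
  have hrW : ∀ v, D.pos v ∈ W' := fun v => c3 v _ (t1 v) ▸ c5 _ (a2 v)
  refine drawing_of_emb D.pos_inj c hc (Linked.minor (Emb S (G.edgeSet × I × I))
    (fun _ _ _ _ h => h.mono) hcon D.pos_inj c _ W' R' col (Nat.lt_succ_self _) c1
    ⟨hrW, c2, fun e => ?_⟩)
  have hend : ∀ v, v ∈ (e : Sym2 V) → D.pos v ∈ {q | ∃ y, q ∈ Cl D.pos W' col (c e y, y)} := by
    intro v hv
    rw [hc e, Sym2.mem_iff] at hv
    rcases hv with rfl | rfl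
    · exact ⟨false, hrW _, Or.inl rfl⟩
    · exact ⟨true, hrW _, Or.inl rfl⟩
  have h8 : ConnIn R' {q | ∃ y, q ∈ Cl D.pos W' col (c e y, y)} (D.pos (t (e, false)))
      (D.pos (t (e, true))) := by
    rcases t5 e with ⟨x, hx, y, hy, hxy⟩ | h4
    · have h5 := c6 x (hTW _ x hx) y (hTW _ y hy) hxy
      rw [c3 _ x hx, c3 _ y hy] at h5
      exact Relation.ReflTransGen.single ⟨h5, hend _ (htm (e, false)), hend _ (htm (e, true))⟩
    have h5 : ∀ y, φ (z e y) = D.pos (t (e, y)) := fun y => c3 _ _ (b2 (e, y) ▸ h4 y)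
    have h6 : ∀ q ∈ {q | q ∈ (W : Set S) ∧ (q = z e true ∨ q = z e false ∨
        ∃ s, ¬ Sd (e, false) s ∧ ¬ Sd (e, true) s ∧ D.arc e s = q)},
        φ q ∈ {q | ∃ y, q ∈ Cl D.pos W' col (c e y, y)} := by
      rintro q ⟨hq, rfl | rfl | ⟨s, h7, h8, rfl⟩⟩
      · exact h5 true ▸ hend _ (htm (e, true))
      · exact h5 false ▸ hend _ (htm (e, false))
      have h9 := hmid e s h7 h8
      by_cases h10 : ∃ v, D.arc e s ∈ T v
      · obtain ⟨v, hv⟩ := h10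
        rw [c3 v _ hv]
        refine hend v ?_
        rcases t4 v _ hv with h11 | ⟨r, i, hi, rfl, h11⟩
        · exact absurd ⟨v, h11.symm⟩ h9
        obtain ⟨-, s', h12, h13⟩ := b4 r i hi
        have h14 : D.arc r.1 s' = D.arc e s := h13.trans h11
        have h15 : r.1 ≠ e := by
          rintro rfl
          obtain rfl : s' = s := D.arc_inj _ h14
          exact hno _ _ r.2 h7 h8 h12
        obtain ⟨u, -, u2, u3 | ⟨y, u3, -⟩⟩ := hN r e s' s h15 h12 h14 (h14 ▸ h9)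
        · exact u3 ▸ u2
        · exact absurd u3 (hno e s y h7 h8)
      · push Not at h10
        obtain ⟨y, hy⟩ := hcol _ e ⟨s, h7, h8, rfl⟩
        have h11 := c5 _ hq
        rw [c4 _ h10] at h11 ⊢
        exact ⟨y, h11, Or.inr ⟨h9, hy⟩⟩
    have h7 := (hz2 e).lift φ (R' := R') (T' := {q | ∃ y, q ∈ Cl D.pos W' col (c e y, y)})
      fun x y h hx hy => Relation.ReflTransGen.single ⟨c6 x hx.1 y hy.1 h, h6 x hx, h6 y hy⟩
    rwa [h5, h5] at h7
  rcases Sym2.eq_iff.1 ((ht e).symm.trans (hc e)) with ⟨h9, h10⟩ | ⟨h9, h10⟩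
  · rwa [h9, h10] at h8
  · rw [h9, h10] at h8
    exact h8.symm c2

end Pool.Agent.Lib.DH7
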