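import Mathlib
import Pool.Agent.Lib.DH7.Main2

set_option autoImplicit false

open Set Function unitInterval

namespace Pool.Agent.Lib.DH7

open Pool.Agent.Lib.MP_15a8b6_co

variable {V : Type*} {G : SimpleGraph V} {S : Type*} [TopologicalSpace S]

/-- Empty middle parts: every edge is cut in two. -/
theorem cut_of_three [Finite V] [T2Space S] [ChartedSpace (EuclideanSpace ℝ (Fin 2)) S]
    (D : Drawing G S) (c : G.edgeSet → unitInterval)
    (h3 : ∀ (e f g : G.edgeSet) (x : S), x ∉ Set.range D.pos → x ∈ Set.range (D.arc e) →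
      x ∈ Set.range (D.arc f) → x ∈ Set.range (D.arc g) →
      ∃ v, v ∈ (e : Sym2 V) ∧ v ∈ (f : Sym2 V) ∧ v ∈ (g : Sym2 V))
    (h2 : ∀ (e f : G.edgeSet) (s t : unitInterval), e ≠ f → D.arc e s = D.arc f t →
      D.arc e s ∉ Set.range D.pos → ∃ v, v ∈ (e : Sym2 V) ∧ v ∈ (f : Sym2 V) ∧
        (D.pos v = D.arc e (if s ≤ c e then 0 else 1) ∨
          D.pos v = D.arc f (if t ≤ c f then 0 else 1))) :
    ∃ D' : Drawing G S, ∀ e f, e ≠ f → ¬ D'.Meet e f := by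
  have key : ∀ e s v, D.pos v = D.arc e (if s ≤ c e then 0 else 1) →
      s ≤ c e ∧ D.pos v = D.arc e 0 ∨ c e < s ∧ D.pos v = D.arc e 1 := by
    intro e s v h
    split_ifs at h with h1
    · exact Or.inl ⟨h1, h⟩
    · exact Or.inr ⟨not_le.1 h1, h⟩
  refine three_parts D c c (fun _ => le_rfl) (fun e => (e : Sym2 V).out.1)
    (fun e => Sym2.out_fst_mem _) (fun e f s t h1 h4 h5 => ?_)
    fun e f g s t r h1 h4 h5 _ _ _ => h3 e f g _ h5 ⟨s, rfl⟩ ⟨t, h1.symm⟩ ⟨r, h4.symm⟩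
  obtain ⟨v, v1, v2, v3⟩ := h2 e f s t h1 h4 h5
  exact ⟨v, v1, v2, v3.imp (key e s v) fun h => Or.inl (key f t v h)⟩

/-- Only middle parts: head-head and tail-tail meetings. -/
theorem oriented_of_three [Finite V] [T2Space S] [ChartedSpace (EuclideanSpace ℝ (Fin 2)) S]
    (D : Drawing G S) (head : G.edgeSet → V) (hhead : ∀ e : G.edgeSet, head e ∈ (e : Sym2 V))
    (h : ∀ e f : G.edgeSet, e ≠ f → D.Meet e f →
      ∃ v, v ∈ (e : Sym2 V) ∧ v ∈ (f : Sym2 V) ∧ (head e = v ↔ head f = v)) :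
    ∃ D' : Drawing G S, ∀ e f, e ≠ f → ¬ D'.Meet e f := by
  have key : ∀ e s, D.arc e s ∉ range D.pos → s ≠ 0 ∧ s ≠ 1 := by
    intro e s hs
    obtain ⟨u, v, -, h0, h1⟩ := D.ends e
    constructor <;> rintro rfl
    · exact hs ⟨u, h0.symm⟩
    · exact hs ⟨v, h1.symm⟩
  refine three_parts D (fun _ => 0) (fun _ => 1) (fun _ => zero_le_one) head hhead
    (fun e f s t h1 h4 h5 => ?_) fun e f g s t r _ _ h5 h6 _ _ => ?_
  · have h6 := key e s h5
    have h7 := key f t (h4 ▸ h5)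
    obtain ⟨v, v1, v2, v3⟩ := h e f h1 ⟨s, t, h6.1, h6.2, h7.1, h7.2, h4⟩
    exact ⟨v, v1, v2, Or.inr (Or.inr ⟨lt_of_le_of_ne s.2.1 h6.1.symm, s.2.2,
      lt_of_le_of_ne t.2.1 h7.1.symm, t.2.2, v3⟩)⟩
  · rcases h6 with h6 | h6
    · exact absurd (le_antisymm h6 s.2.1) (key e s h5).1
    · exact absurd h6 (not_lt.2 s.2.2)

end Pool.Agent.Lib.DH7
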