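import Mathlib

set_option autoImplicit false

open Set Function

namespace Pool.Agent.Lib.DH7

/-- A curve from `a` to `b`, bent by `ε`. -/
noncomputable def cv (a b : ℝ × ℝ) (ε τ : ℝ) : ℝ × ℝ :=
  ((1 - τ * (1 - τ)) * ((1 - τ) * a.1 + τ * b.1) + τ * (1 - τ) * ((a.1 + b.1) / 2 + ε * (b.2 - a.2)),
   (1 - τ * (1 - τ)) * ((1 - τ) * a.2 + τ * b.2) + τ * (1 - τ) * ((a.2 + b.2) / 2 - ε * (b.1 - a.1)))

/-- The equation of the line through `a` and `b`. -/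
def cr (a b z : ℝ × ℝ) : ℝ := (z.1 - a.1) * (b.2 - a.2) - (z.2 - a.2) * (b.1 - a.1)

/-- The squared Euclidean norm. -/
def qq (z : ℝ × ℝ) : ℝ := z.1 ^ 2 + z.2 ^ 2

theorem cv_zero (a b : ℝ × ℝ) (ε : ℝ) : cv a b ε 0 = a := by simp [cv]

theorem cv_one (a b : ℝ × ℝ) (ε : ℝ) : cv a b ε 1 = b := by simp [cv]

theorem cv_cont (a b : ℝ × ℝ) (ε : ℝ) : Continuous (cv a b ε) := by
  unfold cv
  fun_prop

theorem dd_pos {a b : ℝ × ℝ} (h : a ≠ b) : 0 < (b.1 - a.1) ^ 2 + (b.2 - a.2) ^ 2 := by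
  by_contra h1
  have h2 : b.1 - a.1 = 0 := by nlinarith [sq_nonneg (b.1 - a.1), sq_nonneg (b.2 - a.2)]
  have h3 : b.2 - a.2 = 0 := by nlinarith [sq_nonneg (b.1 - a.1), sq_nonneg (b.2 - a.2)]
  exact h (Prod.ext (by linarith) (by linarith))

theorem cr_cv (a b : ℝ × ℝ) (ε τ : ℝ) :
    cr a b (cv a b ε τ) = τ * (1 - τ) * ε * ((b.1 - a.1) ^ 2 + (b.2 - a.2) ^ 2) := by
  simp only [cr, cv]
  ring

theorem cv_inj {a b : ℝ × ℝ} (h : a ≠ b) {ε ε' τ τ' : ℝ} (he : cv a b ε τ = cv a b ε' τ') :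
    τ = τ' := by
  have key : ∀ ε τ : ℝ, ((cv a b ε τ).1 - (a.1 + b.1) / 2) * (b.1 - a.1) +
      ((cv a b ε τ).2 - (a.2 + b.2) / 2) * (b.2 - a.2) =
      (1 - τ * (1 - τ)) * (τ - 1 / 2) * ((b.1 - a.1) ^ 2 + (b.2 - a.2) ^ 2) := fun ε τ => by
    simp only [cv]
    ring
  have h1 := key ε τ
  rw [he, key] at h1
  have h2 := mul_right_cancel₀ (dd_pos h).ne' h1
  have h3 : (τ - τ') * (3 / 4 + (τ - 1 / 2) ^ 2 + (τ - 1 / 2) * (τ' - 1 / 2) +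
      (τ' - 1 / 2) ^ 2) = 0 := by linear_combination -h2
  refine sub_eq_zero.1 ((mul_eq_zero.1 h3).resolve_right (ne_of_gt ?_))
  nlinarith [sq_nonneg (τ - 1 / 2 + (τ' - 1 / 2)), sq_nonneg (τ - 1 / 2), sq_nonneg (τ' - 1 / 2)]

theorem qq_conv (w y : ℝ × ℝ) {l : ℝ} (h0 : 0 ≤ l) (h1 : l ≤ 1) :
    qq ((1 - l) * w.1 + l * y.1, (1 - l) * w.2 + l * y.2) ≤ (1 - l) * qq w + l * qq y := by
  simp only [qq]
  nlinarith [mul_nonneg (mul_nonneg h0 (sub_nonneg.2 h1)) (sq_nonneg (w.1 - y.1)),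
    mul_nonneg (mul_nonneg h0 (sub_nonneg.2 h1)) (sq_nonneg (w.2 - y.2))]

theorem cv_mem {a b : ℝ × ℝ} {ρ ε τ : ℝ} (ha : qq a = ρ) (hb : qq b = ρ)
    (hy : qq ((a.1 + b.1) / 2 + ε * (b.2 - a.2), (a.2 + b.2) / 2 - ε * (b.1 - a.1)) < ρ)
    (hτ : τ ∈ Ioo (0 : ℝ) 1) : qq (cv a b ε τ) < ρ := by
  have h1 := qq_conv a b hτ.1.le hτ.2.le
  have h2 : 0 < τ * (1 - τ) := mul_pos hτ.1 (sub_pos.2 hτ.2)
  have h3 : τ * (1 - τ) ≤ 1 := by nlinarith [hτ.1, hτ.2]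
  have h4 := qq_conv ((1 - τ) * a.1 + τ * b.1, (1 - τ) * a.2 + τ * b.2)
    ((a.1 + b.1) / 2 + ε * (b.2 - a.2), (a.2 + b.2) / 2 - ε * (b.1 - a.1)) h2.le h3
  rw [ha, hb] at h1
  refine lt_of_le_of_lt h4 ?_
  nlinarith [mul_le_mul_of_nonneg_left h1 (sub_nonneg.2 h3), mul_lt_mul_of_pos_left hy h2]

theorem mid_mem {a b : ℝ × ℝ} {ρ : ℝ} (ha : qq a = ρ) (hb : qq b = ρ) (h : a ≠ b) :
    {ε : ℝ | qq ((a.1 + b.1) / 2 + ε * (b.2 - a.2), (a.2 + b.2) / 2 - ε * (b.1 - a.1)) < ρ} ∈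
      nhds (0 : ℝ) := by
  refine IsOpen.mem_nhds (isOpen_lt (by unfold qq; fun_prop) continuous_const) ?_
  have h1 := dd_pos h
  simp only [qq, mem_setOf_eq] at ha hb ⊢
  nlinarith

theorem line_circle {a b z : ℝ × ℝ} {ρ : ℝ} (ha : qq a = ρ) (hb : qq b = ρ) (hz : qq z = ρ)
    (h : a ≠ b) (hc : cr a b z = 0) : z = a ∨ z = b := by
  have h1 := dd_pos h
  simp only [qq, cr] at ha hb hz hc
  obtain ⟨l, h2, h3⟩ : ∃ l : ℝ, z.1 = a.1 + l * (b.1 - a.1) ∧ z.2 = a.2 + l * (b.2 - a.2) := by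
    refine ⟨((z.1 - a.1) * (b.1 - a.1) + (z.2 - a.2) * (b.2 - a.2)) /
      ((b.1 - a.1) ^ 2 + (b.2 - a.2) ^ 2), ?_, ?_⟩
    · field_simp
      linear_combination (b.2 - a.2) * hc
    · field_simp
      linear_combination -(b.1 - a.1) * hc
  have h4 : l * (l - 1) * ((b.1 - a.1) ^ 2 + (b.2 - a.2) ^ 2) = 0 := by
    rw [h2, h3] at hz
    linear_combination hz - ha - l * (hb - ha)
  rcases mul_eq_zero.1 ((mul_eq_zero.1 h4).resolve_right h1.ne') with h5 | h5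
  · exact Or.inl (Prod.ext (by rw [h2, h5]; ring) (by rw [h3, h5]; ring))
  · have h6 : l = 1 := by linarith
    exact Or.inr (Prod.ext (by rw [h2, h6]; ring) (by rw [h3, h6]; ring))

theorem inter_finite {a b a' b' : ℝ × ℝ} (h : cr a b a' ≠ 0) (ε : ℝ) :
    (range (cv a b 0) ∩ range (cv a' b' ε)).Finite := by
  open Polynomial in
  obtain ⟨P, hP⟩ : ∃ P : ℝ[X], ∀ τ, P.eval τ = cr a b (cv a' b' ε τ) :=
    ⟨((1 - X * (1 - X)) * ((1 - X) * C a'.1 + X * C b'.1) +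
        X * (1 - X) * C ((a'.1 + b'.1) / 2 + ε * (b'.2 - a'.2)) - C a.1) * C (b.2 - a.2) -
      ((1 - X * (1 - X)) * ((1 - X) * C a'.2 + X * C b'.2) +
        X * (1 - X) * C ((a'.2 + b'.2) / 2 - ε * (b'.1 - a'.1)) - C a.2) * C (b.1 - a.1),
      fun τ => by
        simp only [cr, cv, eval_sub, eval_mul, eval_add, eval_one, eval_X, eval_C]⟩
  have h1 : P ≠ 0 := by
    rintro rfl
    have h2 := hP 0
    rw [cv_zero, Polynomial.eval_zero] at h2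
    exact h h2.symm
  refine ((Polynomial.finite_setOf_isRoot h1).image (cv a' b' ε)).subset ?_
  rintro _ ⟨⟨τ, hτ⟩, τ', rfl⟩
  refine ⟨τ', ?_, rfl⟩
  show P.eval τ' = 0
  rw [hP, ← hτ, cr_cv]
  ring

/-- Three curves inside a disc with finitely many common points and no triple point. -/
theorem three_curves {ι : Type*} (x y : ι → ℝ × ℝ) (ρ : ℝ) (M : Set ι) {e f g : ι}
    (hM : ∀ h, h ∈ M ↔ h = e ∨ h = f ∨ h = g) (hef : e ≠ f) (heg : e ≠ g) (hfg : f ≠ g)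
    (hx : ∀ h ∈ M, qq (x h) = ρ ∧ qq (y h) = ρ ∧ x h ≠ y h)
    (hsep : ∀ h ∈ M, ∀ h' ∈ M, h ≠ h' → x h ≠ x h' ∧ x h ≠ y h') :
    ∃ ε : ι → ℝ, (∀ h ∈ M, ∀ τ ∈ Ioo (0 : ℝ) 1, qq (cv (x h) (y h) (ε h) τ) < ρ) ∧
      (∀ h ∈ M, ∀ h' ∈ M, h ≠ h' →
        (range (cv (x h) (y h) (ε h)) ∩ range (cv (x h') (y h') (ε h'))).Finite) ∧
      ∀ z, ¬ ∀ h ∈ M, ∃ τ ∈ Ioo (0 : ℝ) 1, cv (x h) (y h) (ε h) τ = z := by
  classical
  have he : e ∈ M := (hM e).2 (Or.inl rfl)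
  have hf : f ∈ M := (hM f).2 (Or.inr (Or.inl rfl))
  have hg : g ∈ M := (hM g).2 (Or.inr (Or.inr rfl))
  have hcr : ∀ h ∈ M, ∀ h' ∈ M, h ≠ h' → cr (x h) (y h) (x h') ≠ 0 := by
    intro h hh h' hh' hne h1
    obtain ⟨a1, a2, a3⟩ := hx h hh
    have h2 := hsep h' hh' h hh hne.symm
    exact (line_circle a1 a2 (hx h' hh').1 a3 h1).elim h2.1 h2.2
  obtain ⟨g1, g2, g3⟩ := hx g hg
  have hZ := inter_finite (b' := y f) (hcr e he f hf hef) 0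
  have hbad : (⋃ z ∈ range (cv (x e) (y e) 0) ∩ range (cv (x f) (y f) 0),
      {ε : ℝ | ∃ τ ∈ Ioo (0 : ℝ) 1, cv (x g) (y g) ε τ = z}).Finite := by
    refine hZ.biUnion fun z _ => Set.Subsingleton.finite ?_
    rintro ε ⟨τ, hτ, h1⟩ ε' ⟨τ', -, h2⟩
    obtain rfl := cv_inj g3 (h1.trans h2.symm)
    have h3 := cr_cv (x g) (y g) ε τ
    rw [h1, ← h2, cr_cv] at h3
    exact (mul_left_cancel₀ (mul_pos hτ.1 (sub_pos.2 hτ.2)).ne'
      (mul_right_cancel₀ (dd_pos g3).ne' h3)).symm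
  obtain ⟨ε, h1, h2⟩ := (infinite_of_mem_nhds 0 (mid_mem g1 g2 g3)).exists_notMem_finite hbad
  refine ⟨fun h => if h = g then ε else 0, fun h hh τ hτ => ?_, fun h hh h' hh' hne => ?_,
    fun z hz => ?_⟩
  · obtain ⟨a1, a2, a3⟩ := hx h hh
    refine cv_mem a1 a2 ?_ hτ
    by_cases h3 : h = g
    · subst h3
      simpa only [if_pos, mem_setOf_eq] using h1
    · simpa only [if_neg h3, mem_setOf_eq] using mem_of_mem_nhds (mid_mem a1 a2 a3)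
  · by_cases h3 : h = g
    · have h4 : h' ≠ g := fun h4 => hne (h3.trans h4.symm)
      simp only [if_neg h4]
      rw [inter_comm]
      exact inter_finite (hcr h' hh' h hh hne.symm) _
    · simp only [if_neg h3]
      exact inter_finite (hcr h hh h' hh' hne) _
  · obtain ⟨τ1, -, a1⟩ := hz e he
    obtain ⟨τ2, -, a2⟩ := hz f hf
    obtain ⟨τ3, a3, a4⟩ := hz g hg
    simp only [if_neg heg, if_neg hfg, if_pos] at a1 a2 a4
    exact h2 (mem_iUnion₂.2 ⟨z, ⟨⟨τ1, a1⟩, ⟨τ2, a2⟩⟩, τ3, a3, a4⟩)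

/-- A round closed disc about a point of a surface. -/
theorem exists_round {S : Type*} [TopologicalSpace S] [T2Space S]
    [ChartedSpace (EuclideanSpace ℝ (Fin 2)) S] {p : S} {O : Set S} (hO : IsOpen O) (hp : p ∈ O) :
    ∃ (ψ : ℝ × ℝ → S) (ρ : ℝ), ContinuousOn ψ {z | qq z ≤ ρ} ∧ InjOn ψ {z | qq z ≤ ρ} ∧
      p ∈ ψ '' {z | qq z < ρ} ∧ IsClosed (ψ '' {z | qq z ≤ ρ}) ∧ IsOpen (ψ '' {z | qq z < ρ}) ∧
      ψ '' {z | qq z ≤ ρ} ⊆ O := by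
  let H : EuclideanSpace ℝ (Fin 2) ≃ₜ ℝ × ℝ :=
    (EuclideanSpace.equiv (Fin 2) ℝ).toHomeomorph.trans Homeomorph.finTwoArrow
  let c := chartAt (EuclideanSpace ℝ (Fin 2)) p
  let φ := c.transHomeomorph (H.trans (Homeomorph.subRight (H (c p))))
  have hps : p ∈ φ.source := mem_chart_source _ p
  have h0 : φ p = 0 := sub_self _
  have h1 : IsOpen (φ.target ∩ φ.symm ⁻¹' O) := φ.isOpen_inter_preimage_symm hO
  have h2 : φ p ∈ φ.target ∩ φ.symm ⁻¹' O := ⟨φ.map_source hps, by simpa [φ.left_inv hps]⟩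
  obtain ⟨r, hr, hb⟩ := Metric.nhds_basis_closedBall.mem_iff.1 (h1.mem_nhds h2)
  have hq : Continuous qq := by
    unfold qq
    fun_prop
  have hsub : {z | qq z ≤ r ^ 2} ⊆ Metric.closedBall (φ p) r := by
    intro z hz
    simp only [qq, mem_setOf_eq] at hz
    rw [h0, mem_closedBall_zero_iff, Prod.norm_def, max_le_iff, Real.norm_eq_abs, Real.norm_eq_abs]
    exact ⟨abs_le_of_sq_le_sq' (by nlinarith [sq_nonneg z.2]) hr.le |> abs_le.2,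
      abs_le_of_sq_le_sq' (by nlinarith [sq_nonneg z.1]) hr.le |> abs_le.2⟩
  have hbt : {z | qq z ≤ r ^ 2} ⊆ φ.target := fun z hz => (hb (hsub hz)).1
  refine ⟨φ.symm, r ^ 2, φ.continuousOn_symm.mono hbt, φ.symm.injOn.mono hbt,
    ⟨φ p, ?_, φ.left_inv hps⟩, ?_, ?_, ?_⟩
  · rw [h0]
    simpa [qq] using pow_pos hr 2
  · exact (((isCompact_closedBall _ _).of_isClosed_subset (isClosed_le hq continuous_const)
      hsub).image_of_continuousOn (φ.continuousOn_symm.mono hbt)).isClosed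
  · exact φ.symm.isOpen_image_of_subset_source (isOpen_lt hq continuous_const)
      fun z hz => hbt (le_of_lt (show qq z < r ^ 2 from hz))
  · rintro _ ⟨z, hz, rfl⟩
    exact (hb (hsub hz)).2

end Pool.Agent.Lib.DH7
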