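import Mathlib
import Pool.Agent.Lib.DH7.Geo
import Pool.Agent.Lib.MP_15a8b6_co.Defs

set_option autoImplicit false

open Set Function

namespace Pool.Agent.Lib.DH7

open unitInterval Pool.Agent.Lib.MP_15a8b6_co

variable {V : Type*} {G : SimpleGraph V} {S : Type*} [TopologicalSpace S]

/-- Replacing the part of an arc between its first and last point in a disc. -/
theorem splice (A : C(I, S)) (hA : Injective A) {s1 s2 : I} (h12 : s1 < s2) (c : ℝ → S)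
    (hc : ContinuousOn c (Icc 0 1)) (hci : InjOn c (Icc 0 1)) (h0 : c 0 = A s1) (h1 : c 1 = A s2)
    (U : Set S) (hU : ∀ τ ∈ Ioo (0 : ℝ) 1, c τ ∈ U) (hAU : ∀ s, ¬ (s1 < s ∧ s < s2) → A s ∉ U) :
    ∃ A' : C(I, S), Injective A' ∧ (∀ s, ¬ (s1 < s ∧ s < s2) → A' s = A s) ∧
      ∀ s, s1 < s → s < s2 → ∃ τ ∈ Ioo (0 : ℝ) 1, A' s = c τ := by
  have hd : (0 : ℝ) < s2 - s1 := sub_pos.2 h12
  let τ : I → ℝ := fun s => max 0 (min 1 (((s : ℝ) - s1) / (s2 - s1)))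
  have hτ : ∀ s, τ s ∈ Icc (0 : ℝ) 1 := fun s =>
    ⟨le_max_left _ _, max_le zero_le_one (min_le_left _ _)⟩
  have hτ' : ∀ s, s1 < s → s < s2 → τ s = ((s : ℝ) - s1) / (s2 - s1) ∧ τ s ∈ Ioo (0 : ℝ) 1 := by
    intro s a1 a2
    have a3 : (0 : ℝ) < ((s : ℝ) - s1) / (s2 - s1) := div_pos (sub_pos.2 a1) hd
    have a4 : ((s : ℝ) - s1) / (s2 - s1) < 1 :=
      (div_lt_one hd).2 (sub_lt_sub_right (show (s : ℝ) < s2 from a2) _)
    have a5 : τ s = ((s : ℝ) - s1) / (s2 - s1) := by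
      simp only [τ]
      rw [min_eq_right a4.le, max_eq_right a3.le]
    exact ⟨a5, a5 ▸ ⟨a3, a4⟩⟩
  have hm : Continuous fun s => c (τ s) :=
    hc.comp_continuous (by simp only [τ]; fun_prop) hτ
  have hin : Continuous fun s : I => if s2 ≤ s then A s else c (τ s) := by
    refine Continuous.if_le A.continuous hm continuous_const continuous_id ?_
    rintro s rfl
    simp only [τ]
    rw [div_self hd.ne', min_self, max_eq_right zero_le_one, h1]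
  have hout : Continuous fun s : I =>
      if s ≤ s1 then A s else if s2 ≤ s then A s else c (τ s) := by
    refine Continuous.if_le A.continuous hin continuous_id continuous_const ?_
    rintro s rfl
    rw [if_neg (not_le.2 h12)]
    simp only [τ]
    rw [sub_self, zero_div, min_eq_right zero_le_one, max_self, h0]
  have a1 : ∀ s, ¬ (s1 < s ∧ s < s2) →
      (if s ≤ s1 then A s else if s2 ≤ s then A s else c (τ s)) = A s := by
    intro s hs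
    split_ifs with h2 h3
    · rfl
    · rfl
    · exact absurd ⟨not_le.1 h2, not_le.1 h3⟩ hs
  have a2 : ∀ s, s1 < s → s < s2 →
      (if s ≤ s1 then A s else if s2 ≤ s then A s else c (τ s)) = c (τ s) := fun s h2 h3 => by
    rw [if_neg (not_le.2 h2), if_neg (not_le.2 h3)]
  refine ⟨⟨_, hout⟩, fun s t h => ?_, a1, fun s h2 h3 => ⟨τ s, (hτ' s h2 h3).2, a2 s h2 h3⟩⟩
  simp only [ContinuousMap.coe_mk] at h
  by_cases hs : s1 < s ∧ s < s2 <;> by_cases ht : s1 < t ∧ t < s2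
  · rw [a2 s hs.1 hs.2, a2 t ht.1 ht.2] at h
    have h2 := hci (hτ s) (hτ t) h
    rw [(hτ' s hs.1 hs.2).1, (hτ' t ht.1 ht.2).1, div_left_inj' hd.ne'] at h2
    exact Subtype.ext (sub_left_injective h2)
  · rw [a2 s hs.1 hs.2, a1 t ht] at h
    exact absurd (h ▸ hU _ (hτ' s hs.1 hs.2).2) (hAU t ht)
  · rw [a1 s hs, a2 t ht.1 ht.2] at h
    exact absurd (h ▸ hU _ (hτ' t ht.1 ht.2).2) (hAU s hs)
  · rw [a1 s hs, a1 t ht] at h
    exact hA h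

/-- The first and the last point of an arc in a closed disc. -/
theorem first_last (A : C(I, S)) {K U : Set S} (hK : IsClosed K) (hU : IsOpen U) (hUK : U ⊆ K)
    (h0 : A 0 ∉ K) (h1 : A 1 ∉ K) {s0 : I} (hs0 : A s0 ∈ U) :
    ∃ s1 s2, s1 < s0 ∧ s0 < s2 ∧ A s1 ∈ K ∧ A s2 ∈ K ∧
      ∀ s, ¬ (s1 < s ∧ s < s2) → A s ∉ U := by
  have hc : IsCompact (A ⁻¹' K) := (hK.preimage A.continuous).isCompact
  obtain ⟨s1, a1, a2⟩ := hc.exists_isLeast ⟨s0, hUK hs0⟩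
  obtain ⟨s2, a3, a4⟩ := hc.exists_isGreatest ⟨s0, hUK hs0⟩
  have a5 : A s1 ∉ U := fun h => by
    obtain ⟨l, b1, b2⟩ := exists_Ioc_subset_of_mem_nhds
      ((hU.preimage A.continuous).mem_nhds (show s1 ∈ A ⁻¹' U from h))
      ⟨0, lt_of_le_of_ne s1.2.1 (by rintro rfl; exact h0 a1)⟩
    obtain ⟨s, b3, b4⟩ := exists_between b1
    exact absurd (a2 (hUK (b2 ⟨b3, b4.le⟩))) (not_le.2 b4)
  have a6 : A s2 ∉ U := fun h => by
    obtain ⟨l, b1, b2⟩ := exists_Ico_subset_of_mem_nhds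
      ((hU.preimage A.continuous).mem_nhds (show s2 ∈ A ⁻¹' U from h))
      ⟨1, lt_of_le_of_ne s2.2.2 (by rintro rfl; exact h1 a3)⟩
    obtain ⟨s, b3, b4⟩ := exists_between b1
    exact absurd (a4 (hUK (b2 ⟨b3.le, b4⟩))) (not_le.2 b3)
  refine ⟨s1, s2, lt_of_le_of_ne (a2 (hUK hs0)) (by rintro rfl; exact a5 hs0),
    lt_of_le_of_ne (a4 (hUK hs0)) (by rintro rfl; exact a6 hs0), a1, a3, fun s hs h => hs ⟨?_, ?_⟩⟩
  · exact lt_of_le_of_ne (a2 (hUK h)) (by rintro rfl; exact a5 h)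
  · exact lt_of_le_of_ne (a4 (hUK h)) (by rintro rfl; exact a6 h)

/-- Redrawing three arcs near a common point so that they no longer pass through one point. -/
theorem untriple [Finite V] [T2Space S] [ChartedSpace (EuclideanSpace ℝ (Fin 2)) S]
    (D : Drawing G S) {p : S} (hp : p ∉ range D.pos) {e f g : G.edgeSet}
    (hM : ∀ h, p ∈ range (D.arc h) ↔ h = e ∨ h = f ∨ h = g) (hef : e ≠ f) (heg : e ≠ g)
    (hfg : f ≠ g) :
    ∃ (D' : Drawing G S) (s0 s1 s2 : G.edgeSet → I), D'.pos = D.pos ∧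
      (∀ h, s1 h ≤ s0 h ∧ s0 h ≤ s2 h) ∧
      (∀ h s, ¬ (s1 h < s ∧ s < s2 h) → D'.arc h s = D.arc h s) ∧
      (∀ h s, s1 h < s → s < s2 h → D.arc h (s0 h) = p) ∧
      (∀ h h' s t, h ≠ h' → D'.arc h s = D'.arc h' t → D'.arc h s ∉ range D.pos →
        (D'.arc h s ≠ p ∧ (s < s1 h ∨ s2 h < s) ∧ (t < s1 h' ∨ s2 h' < t)) ∨
        (s1 h < s ∧ s < s2 h ∧ s1 h' < t ∧ t < s2 h')) ∧
      ∀ z, ¬ ∀ h, p ∈ range (D.arc h) → ∃ s, s1 h < s ∧ s < s2 h ∧ D'.arc h s = z := by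
  classical
  set M : Set G.edgeSet := {h | p ∈ range (D.arc h)} with hMd
  have hfin : (range D.pos ∪ ⋃ e, ⋃ f, ⋃ (_ : e ≠ f), range (D.arc e) ∩ range (D.arc f)).Finite :=
    (finite_range _).union (finite_iUnion fun e => finite_iUnion fun f => finite_iUnion fun h =>
      D.finite_inter e f h)
  obtain ⟨ψ, ρ, c1, c2, c3, c4, c5, c6⟩ := exists_round (p := p)
    (O := (((range D.pos ∪ ⋃ e, ⋃ f, ⋃ (_ : e ≠ f), range (D.arc e) ∩ range (D.arc f)) \ {p}) ∪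
      ⋃ h, ⋃ (_ : h ∉ M), range (D.arc h))ᶜ)
    (((hfin.subset diff_subset).isClosed.union (isClosed_iUnion_of_finite fun h =>
      isClosed_iUnion_of_finite fun _ => (isCompact_range (D.arc h).continuous).isClosed)).isOpen_compl)
    (by
      rintro (h | h)
      · exact h.2 rfl
      · obtain ⟨h', a1, a2⟩ := mem_iUnion₂.1 h
        exact a1 a2)
  set K := ψ '' {z | qq z ≤ ρ} with hK
  set U := ψ '' {z | qq z < ρ} with hU
  have hUK : U ⊆ K := image_mono fun z hz => le_of_lt (show qq z < ρ from hz)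
  have hKv : ∀ v, D.pos v ∉ K := fun v h =>
    c6 h (Or.inl ⟨Or.inl ⟨v, rfl⟩, fun h' => hp ⟨v, h'⟩⟩)
  have hKc : ∀ h h' s t, h ≠ h' → D.arc h s = D.arc h' t → D.arc h s ∈ K → D.arc h s = p := by
    intro h h' s t a1 a2 a3
    by_contra a4
    exact c6 a3 (Or.inl ⟨Or.inr (mem_iUnion.2 ⟨h, mem_iUnion₂.2 ⟨h', a1, ⟨s, rfl⟩, ⟨t, a2.symm⟩⟩⟩),
      a4⟩)
  have hKo : ∀ h s, h ∉ M → D.arc h s ∉ K := fun h s a1 a2 =>
    c6 a2 (Or.inr (mem_iUnion₂.2 ⟨h, a1, s, rfl⟩))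
  have hdata : ∀ h, ∃ (s0 s1 s2 : I) (x y : ℝ × ℝ), s1 ≤ s0 ∧ s0 ≤ s2 ∧
      (∀ s, ¬ (s1 < s ∧ s < s2) → D.arc h s ∉ U) ∧ (h ∉ M → s1 = 0 ∧ s2 = 0) ∧
      (h ∈ M → D.arc h s0 = p ∧ s1 < s2 ∧ qq x = ρ ∧ qq y = ρ ∧ ψ x = D.arc h s1 ∧
        ψ y = D.arc h s2) := by
    intro h
    by_cases hh : h ∈ M
    · obtain ⟨s0, hs0⟩ := id hh
      obtain ⟨u, v, -, a1, a2⟩ := D.ends h
      obtain ⟨s1, s2, b1, b2, ⟨x, b3, b4⟩, ⟨y, b5, b6⟩, b7⟩ := first_last (D.arc h) c4 c5 hUK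
        (a1 ▸ hKv u) (a2 ▸ hKv v) (s0 := s0) (hs0 ▸ c3)
      refine ⟨s0, s1, s2, x, y, b1.le, b2.le, b7, fun h' => absurd hh h', fun _ =>
        ⟨hs0, b1.trans b2, ?_, ?_, b4, b6⟩⟩
      · exact le_antisymm b3 (not_lt.1 fun h' => b7 s1 (fun h'' => lt_irrefl _ h''.1) ⟨x, h', b4⟩)
      · exact le_antisymm b5 (not_lt.1 fun h' => b7 s2 (fun h'' => lt_irrefl _ h''.2) ⟨y, h', b6⟩)
    · exact ⟨0, 0, 0, 0, 0, le_rfl, le_rfl, fun s _ h' => hKo h s hh (hUK h'),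
        fun _ => ⟨rfl, rfl⟩, fun h' => absurd h' hh⟩
  choose s0 s1 s2 x y d1 d2 d3 d4 d5 using hdata
  have hxy : ∀ h ∈ M, qq (x h) = ρ ∧ qq (y h) = ρ ∧ x h ≠ y h := fun h hh => by
    obtain ⟨-, a1, a2, a3, a4, a5⟩ := d5 h hh
    exact ⟨a2, a3, fun a6 => a1.ne (D.arc_inj h (a4.symm.trans (a6 ▸ a5)))⟩
  have hb : ∀ h ∈ M, ∀ s, s = s1 h ∨ s = s2 h → ∀ h' t, h ≠ h' → D.arc h s ≠ D.arc h' t := by
    intro h hh s hs h' t hne a1
    obtain ⟨-, -, a2, a3, a4, a5⟩ := d5 h hh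
    have a6 : D.arc h s ∈ K := by
      rcases hs with rfl | rfl
      · exact ⟨_, a2.le, a4⟩
      · exact ⟨_, a3.le, a5⟩
    refine d3 h s ?_ (hKc h h' s t hne a1 a6 ▸ c3)
    rcases hs with rfl | rfl
    · exact fun h'' => lt_irrefl _ h''.1
    · exact fun h'' => lt_irrefl _ h''.2
  obtain ⟨ε, e1, e2, e3⟩ := three_curves x y ρ M hM hef heg hfg hxy fun h hh h' hh' hne =>
    ⟨fun a => hb h hh _ (Or.inl rfl) h' _ hne
        ((d5 h hh).2.2.2.2.1.symm.trans (a ▸ (d5 h' hh').2.2.2.2.1)),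
      fun a => hb h hh _ (Or.inl rfl) h' _ hne
        ((d5 h hh).2.2.2.2.1.symm.trans (a ▸ (d5 h' hh').2.2.2.2.2))⟩
  have hA : ∀ h, ∃ A' : C(I, S), Injective A' ∧
      (∀ s, ¬ (s1 h < s ∧ s < s2 h) → A' s = D.arc h s) ∧ ∀ s, s1 h < s → s < s2 h →
        h ∈ M ∧ ∃ τ ∈ Ioo (0 : ℝ) 1, A' s = ψ (cv (x h) (y h) (ε h) τ) := by
    intro h
    by_cases hh : h ∈ M
    · obtain ⟨-, a1, a2, a3, a4, a5⟩ := d5 h hh
      have a6 : MapsTo (cv (x h) (y h) (ε h)) (Icc 0 1) {z | qq z ≤ ρ} := by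
        intro τ hτ
        rcases eq_or_lt_of_le hτ.1 with rfl | b1
        · exact (cv_zero _ _ _).symm ▸ a2.le
        rcases eq_or_lt_of_le hτ.2 with rfl | b2
        · exact (cv_one _ _ _).symm ▸ a3.le
        exact (e1 h hh τ ⟨b1, b2⟩).le
      obtain ⟨A', b1, b2, b3⟩ := splice (D.arc h) (D.arc_inj h) a1
        (fun τ => ψ (cv (x h) (y h) (ε h) τ)) (c1.comp (cv_cont _ _ _).continuousOn a6)
        (fun τ hτ τ' hτ' a => cv_inj (hxy h hh).2.2 (c2 (a6 hτ) (a6 hτ') a))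
        (by rw [cv_zero, a4]) (by rw [cv_one, a5]) U (fun τ hτ => ⟨_, e1 h hh τ hτ, rfl⟩) (d3 h)
      exact ⟨A', b1, b2, fun s b4 b5 => ⟨hh, b3 s b4 b5⟩⟩
    · refine ⟨D.arc h, D.arc_inj h, fun _ _ => rfl, fun s a1 a2 => ?_⟩
      rw [(d4 h hh).2] at a2
      exact absurd a2 (not_lt.2 s.2.1)
  choose A f1 f2 f3 using hA
  have hAU : ∀ h s, A h s ∈ U ↔ s1 h < s ∧ s < s2 h := fun h s => by
    refine ⟨fun a => by_contra fun a' => d3 h s a' (f2 h s a' ▸ a), fun a => ?_⟩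
    obtain ⟨hh, τ, b1, b2⟩ := f3 h s a.1 a.2
    exact ⟨_, e1 h hh τ b1, b2.symm⟩
  have h0 : ∀ h, A h 0 = D.arc h 0 := fun h => f2 h 0 fun a => absurd a.1 (not_lt.2 (s1 h).2.1)
  have h1 : ∀ h, A h 1 = D.arc h 1 := fun h => f2 h 1 fun a => absurd a.2 (not_lt.2 (s2 h).2.2)
  refine ⟨⟨D.pos, D.pos_inj, A, f1, fun h => ?_, fun h t w a => ?_, fun h h' hne => ?_⟩, s0, s1, s2,
    rfl, fun h => ⟨d1 h, d2 h⟩, f2, fun h s a1 a2 => (d5 h (f3 h s a1 a2).1).1,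
    fun h h' s t hne a1 a2 => ?_, fun z hz => ?_⟩
  · rw [h0, h1]
    exact D.ends h
  · have a1 : ¬ (s1 h < t ∧ t < s2 h) := fun a1 => hKv w (a ▸ hUK ((hAU h t).2 a1))
    exact D.avoid h t w ((f2 h t a1).symm.trans a)
  · by_cases hh : h ∈ M ∧ h' ∈ M
    · refine ((D.finite_inter h h' hne).union ((e2 h hh.1 h' hh.2 hne).image ψ)).subset ?_
      rintro _ ⟨⟨s, rfl⟩, t, a⟩
      by_cases a1 : s1 h < s ∧ s < s2 h
      · have a2 := (hAU h' t).1 (a ▸ (hAU h s).2 a1)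
        obtain ⟨-, τ, b1, b2⟩ := f3 h s a1.1 a1.2
        obtain ⟨-, τ', b3, b4⟩ := f3 h' t a2.1 a2.2
        exact Or.inr ⟨_, ⟨⟨τ, rfl⟩, τ', c2 (e1 h' hh.2 τ' b3).le (e1 h hh.1 τ b1).le
          (b4.symm.trans (a.trans b2))⟩, b2.symm⟩
      · have a2 : ¬ (s1 h' < t ∧ t < s2 h') := fun a2 => a1 ((hAU h s).1 (a ▸ (hAU h' t).2 a2))
        exact Or.inl ⟨⟨s, (f2 h s a1).symm⟩, t, (f2 h' t a2).symm.trans a⟩
    · refine (D.finite_inter h h' hne).subset ?_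
      rintro _ ⟨⟨s, rfl⟩, t, a⟩
      have a1 : ¬ (s1 h < s ∧ s < s2 h) := fun a1 => by
        have a2 := (hAU h' t).1 (a ▸ (hAU h s).2 a1)
        exact hh ⟨(f3 h s a1.1 a1.2).1, (f3 h' t a2.1 a2.2).1⟩
      have a2 : ¬ (s1 h' < t ∧ t < s2 h') := fun a2 => a1 ((hAU h s).1 (a ▸ (hAU h' t).2 a2))
      exact ⟨⟨s, (f2 h s a1).symm⟩, t, (f2 h' t a2).symm.trans a⟩
  · dsimp only at a1 a2 ⊢
    by_cases a3 : s1 h < s ∧ s < s2 h
    · have a4 := (hAU h' t).1 (a1 ▸ (hAU h s).2 a3)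
      exact Or.inr ⟨a3.1, a3.2, a4.1, a4.2⟩
    have a4 : ¬ (s1 h' < t ∧ t < s2 h') := fun a4 => a3 ((hAU h s).1 (a1 ▸ (hAU h' t).2 a4))
    have key : ∀ h h' s t, h ≠ h' → D.arc h s = D.arc h' t → D.arc h s ∉ range D.pos →
        ¬ (s1 h < s ∧ s < s2 h) → s < s1 h ∨ s2 h < s := by
      intro h h' s t hne b1 b2 b3
      by_cases hh : h ∈ M
      · by_contra b4
        push Not at b4
        refine hb h hh s ?_ h' t hne b1
        by_contra b5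
        push Not at b5
        exact b3 ⟨lt_of_le_of_ne b4.1 b5.1.symm, lt_of_le_of_ne b4.2 b5.2⟩
      · refine Or.inr ((d4 h hh).2 ▸ lt_of_le_of_ne s.2.1 ?_)
        rintro rfl
        obtain ⟨u, v, -, b4, -⟩ := D.ends h
        exact b2 ⟨u, b4.symm⟩
    have a5 := f2 h s a3
    have a6 := f2 h' t a4
    refine Or.inl ⟨fun a7 => a3 ((hAU h s).1 (a7 ▸ c3)), key h h' s t hne ?_ (a5 ▸ a2) a3,
      key h' h t s hne.symm ?_ (a6 ▸ a1 ▸ a2) a4⟩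
    · rw [← a5, ← a6, a1]
    · rw [← a5, ← a6, a1]
  · obtain ⟨s, a1, a2, a3⟩ := hz e ((hM e).2 (Or.inl rfl))
    obtain ⟨w, a4, a5⟩ : z ∈ U := a3 ▸ (hAU e s).2 ⟨a1, a2⟩
    refine e3 w fun h hh => ?_
    obtain ⟨t, b1, b2, b3⟩ := hz h hh
    obtain ⟨-, τ, b4, b5⟩ := f3 h t b1 b2
    exact ⟨τ, b4, c2 (e1 h hh τ b4).le (le_of_lt (show qq w < ρ from a4))
      (b5.symm.trans (b3.trans a5.symm))⟩

end Pool.Agent.Lib.DH7
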