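import Mathlib
import Pool.Agent.Lib.DH7.Main2
import Pool.Agent.Lib.DH7.Untriple

set_option autoImplicit false

open Set Function

namespace Pool.Agent.Lib.DH7

open unitInterval Pool.Agent.Lib.MP_15a8b6_co

variable {V : Type*} {G : SimpleGraph V} {S : Type*} [TopologicalSpace S]

theorem exists_move {α : Type*} [LinearOrder α] {s0 s1 s2 : α} (h1 : s1 ≤ s0) (h2 : s0 ≤ s2) :
    ∃ m : α → α, (∀ a b, a ≤ b → m a ≤ m b) ∧ (∀ a s, s1 < s → s < s2 → (s ≤ m a ↔ s0 ≤ a)) ∧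
      ∀ a s, s < s1 ∨ s2 < s → (s ≤ m a ↔ s ≤ a) := by
  refine ⟨fun a => if a < s1 then a else if s2 ≤ a then a else if s0 ≤ a then s2 else s1,
    fun a b h => ?_, fun a s h3 h4 => ?_, fun a s h => ?_⟩
  · dsimp only
    split_ifs <;> order
  · dsimp only
    split_ifs <;> constructor <;> intro h <;> order
  · dsimp only
    rcases h with h | h <;> split_ifs <;> constructor <;> intro h <;> order

theorem triangle_of {P : G.edgeSet → Prop}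
    (hP : ∀ e f, P e → P f → ∃ v, v ∈ (e : Sym2 V) ∧ v ∈ (f : Sym2 V)) {e f g : G.edgeSet}
    (he : P e) (hf : P f) (hg : P g)
    (h : ¬ ∃ v, v ∈ (e : Sym2 V) ∧ v ∈ (f : Sym2 V) ∧ v ∈ (g : Sym2 V)) :
    e ≠ f ∧ e ≠ g ∧ f ≠ g ∧ ∀ k, P k ↔ k = e ∨ k = f ∨ k = g := by
  obtain ⟨u, u1, u2⟩ := hP e f he hf
  obtain ⟨v, v1, v2⟩ := hP f g hf hg
  obtain ⟨w, w1, w2⟩ := hP e g he hg
  have huv : u ≠ v := fun a => h ⟨u, u1, u2, a ▸ v2⟩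
  have huw : u ≠ w := fun a => h ⟨u, u1, u2, a ▸ w2⟩
  have hvw : v ≠ w := fun a => h ⟨v, a ▸ w1, v1, v2⟩
  refine ⟨fun a => h ⟨v, a ▸ v1, v1, v2⟩, fun a => h ⟨v, a ▸ v2, v1, v2⟩,
    fun a => h ⟨u, u1, u2, a ▸ u2⟩, fun k => ⟨fun hk => ?_, ?_⟩⟩
  · obtain ⟨x, x1, x2⟩ := hP k e hk he
    obtain ⟨y, y1, y2⟩ := hP k f hk hf
    obtain ⟨z, z1, z2⟩ := hP k g hk hg
    rw [(Sym2.mem_and_mem_iff huw).1 ⟨u1, w1⟩, Sym2.mem_iff] at x2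
    rw [(Sym2.mem_and_mem_iff huv).1 ⟨u2, v1⟩, Sym2.mem_iff] at y2
    rw [(Sym2.mem_and_mem_iff hvw).1 ⟨v2, w2⟩, Sym2.mem_iff] at z2
    rcases x2 with rfl | rfl
    · rcases z2 with rfl | rfl
      · exact Or.inr (Or.inl (Subtype.ext (Sym2.eq_of_ne_mem huv x1 z1 u2 v1)))
      · exact Or.inl (Subtype.ext (Sym2.eq_of_ne_mem huw x1 z1 u1 w1))
    · rcases y2 with rfl | rfl
      · exact Or.inl (Subtype.ext (Sym2.eq_of_ne_mem huw y1 x1 u1 w1))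
      · exact Or.inr (Or.inr (Subtype.ext (Sym2.eq_of_ne_mem hvw y1 x1 v2 w2)))
  · rintro (rfl | rfl | rfl) <;> assumption

/-- The three-part theorem with no hypothesis on triple points. -/
theorem cut_points [Finite V] [T2Space S] [ChartedSpace (EuclideanSpace ℝ (Fin 2)) S]
    (head : G.edgeSet → V) (hhead : ∀ e : G.edgeSet, head e ∈ (e : Sym2 V)) (n : ℕ) :
    ∀ (D : Drawing G S) (a b : G.edgeSet → I), (∀ e, a e ≤ b e) →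
    {x | x ∉ range D.pos ∧ ∃ e f g : G.edgeSet, x ∈ range (D.arc e) ∧ x ∈ range (D.arc f) ∧
      x ∈ range (D.arc g) ∧
      ¬ ∃ v, v ∈ (e : Sym2 V) ∧ v ∈ (f : Sym2 V) ∧ v ∈ (g : Sym2 V)}.ncard < n →
    (∀ (e f : G.edgeSet) (s t : I), e ≠ f → D.arc e s = D.arc f t →
      D.arc e s ∉ range D.pos → ∃ v, v ∈ (e : Sym2 V) ∧ v ∈ (f : Sym2 V) ∧
        ((s ≤ a e ∧ D.pos v = D.arc e 0 ∨ b e < s ∧ D.pos v = D.arc e 1) ∨
          (t ≤ a f ∧ D.pos v = D.arc f 0 ∨ b f < t ∧ D.pos v = D.arc f 1) ∨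
          (a e < s ∧ s ≤ b e ∧ a f < t ∧ t ≤ b f ∧ (head e = v ↔ head f = v)))) →
    ∃ D' : Drawing G S, ∀ e f, e ≠ f → ¬ D'.Meet e f := by
  have hpair : ∀ (D : Drawing G S) (Q : G.edgeSet → G.edgeSet → I → I → V → Prop),
      (∀ (e f : G.edgeSet) (s t : I), e ≠ f → D.arc e s = D.arc f t → D.arc e s ∉ range D.pos →
        ∃ v, v ∈ (e : Sym2 V) ∧ v ∈ (f : Sym2 V) ∧ Q e f s t v) → ∀ x, x ∉ range D.pos →
      ∀ e f : G.edgeSet, x ∈ range (D.arc e) → x ∈ range (D.arc f) →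
        ∃ v, v ∈ (e : Sym2 V) ∧ v ∈ (f : Sym2 V) := by
    rintro D Q h2 _ hx e f ⟨s, rfl⟩ ⟨t, ht⟩
    by_cases hef : e = f
    · exact ⟨head e, hhead e, hef ▸ hhead e⟩
    · obtain ⟨v, v1, v2, -⟩ := h2 e f s t hef ht.symm hx
      exact ⟨v, v1, v2⟩
  induction n with
  | zero => intro D a b _ h; omega
  | succ n ih =>
  intro D a b hab hn h2
  set B := {x | x ∉ range D.pos ∧ ∃ e f g : G.edgeSet, x ∈ range (D.arc e) ∧
    x ∈ range (D.arc f) ∧ x ∈ range (D.arc g) ∧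
    ¬ ∃ v, v ∈ (e : Sym2 V) ∧ v ∈ (f : Sym2 V) ∧ v ∈ (g : Sym2 V)} with hB
  rcases B.eq_empty_or_nonempty with h0 | ⟨p, hpB⟩
  · refine three_parts D a b hab head hhead h2 fun e f g s t r a1 a2 a3 _ _ _ => ?_
    by_contra a4
    exact (h0 ▸ (⟨a3, e, f, g, ⟨s, rfl⟩, ⟨t, a1.symm⟩, ⟨r, a2.symm⟩, a4⟩ : D.arc e s ∈ B) :
      D.arc e s ∈ (∅ : Set S))
  have hfin : B.Finite := by
    refine (finite_iUnion fun e => finite_iUnion fun f => finite_iUnion fun h =>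
      D.finite_inter e f h).subset ?_
    rintro x ⟨hx, e, f, g, a1, a2, a3, a4⟩
    exact mem_iUnion.2 ⟨e, mem_iUnion₂.2
      ⟨f, (triangle_of (hpair D _ h2 x hx) a1 a2 a3 a4).1, a1, a2⟩⟩
  obtain ⟨hp, e, f, g, a1, a2, a3, a4⟩ := id hpB
  obtain ⟨hef, heg, hfg, hM⟩ := triangle_of (hpair D _ h2 p hp) a1 a2 a3 a4
  obtain ⟨D', s0, s1, s2, q0, q1, q2, q3, q4, q5⟩ := untriple D hp hM hef heg hfg
  choose m m1 m2 m3 using fun h => exists_move (q1 h).1 (q1 h).2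
  have z0 : ∀ h, D'.arc h 0 = D.arc h 0 := fun h =>
    q2 h 0 fun a => absurd a.1 (not_lt.2 (s1 h).2.1)
  have z1 : ∀ h, D'.arc h 1 = D.arc h 1 := fun h =>
    q2 h 1 fun a => absurd a.2 (not_lt.2 (s2 h).2.2)
  have hout : ∀ h s, s < s1 h ∨ s2 h < s → D'.arc h s = D.arc h s := fun h s hs =>
    q2 h s fun a => hs.elim (fun c => lt_asymm c a.1) fun c => lt_asymm c a.2
  have h2' : ∀ (e f : G.edgeSet) (s t : I), e ≠ f → D'.arc e s = D'.arc f t →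
      D'.arc e s ∉ range D'.pos → ∃ v, v ∈ (e : Sym2 V) ∧ v ∈ (f : Sym2 V) ∧
        ((s ≤ m e (a e) ∧ D'.pos v = D'.arc e 0 ∨ m e (b e) < s ∧ D'.pos v = D'.arc e 1) ∨
          (t ≤ m f (a f) ∧ D'.pos v = D'.arc f 0 ∨ m f (b f) < t ∧ D'.pos v = D'.arc f 1) ∨
          (m e (a e) < s ∧ s ≤ m e (b e) ∧ m f (a f) < t ∧ t ≤ m f (b f) ∧
            (head e = v ↔ head f = v))) := by
    intro h h' s t hne b1 b2
    rw [q0] at b2 ⊢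
    rcases q4 h h' s t hne b1 b2 with ⟨-, b3, b4⟩ | ⟨b3, b4, b5, b6⟩
    · rw [hout h s b3] at b2
      rw [hout h s b3, hout h' t b4] at b1
      simpa only [← not_le, m3 h _ s b3, m3 h' _ t b4, z0, z1] using h2 h h' s t hne b1 b2
    · have b7 := q3 h s b3 b4
      have b8 := q3 h' t b5 b6
      simpa only [← not_le, m2 h _ s b3 b4, m2 h' _ t b5 b6, z0, z1] using
        h2 h h' _ _ hne (b7.trans b8.symm) (b7 ▸ hp)
  refine ih D' (fun h => m h (a h)) (fun h => m h (b h)) (fun h => m1 h _ _ (hab h)) ?_ h2'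
  refine lt_of_le_of_lt (ncard_le_ncard (t := B \ {p}) ?_ (hfin.subset diff_subset))
    (lt_of_lt_of_le (ncard_diff_singleton_lt_of_mem hpB hfin) (by omega))
  rintro _ ⟨hx, h, h', h'', ⟨s, rfl⟩, ⟨t, b1⟩, ⟨r, b2⟩, b3⟩
  obtain ⟨b4, b5, b6, -⟩ := triangle_of (hpair D' _ h2' _ hx) ⟨s, rfl⟩ ⟨t, b1⟩ ⟨r, b2⟩ b3
  rw [q0] at hx
  rcases q4 h h' s t b4 b1.symm hx with ⟨c1, c2, c3⟩ | ⟨c1, c2, c3, c4⟩ <;>
    rcases q4 h h'' s r b5 b2.symm hx with ⟨d1, d2, d3⟩ | ⟨d1, d2, d3, d4⟩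
  · exact ⟨⟨hx, h, h', h'', ⟨s, (hout h s c2).symm⟩, ⟨t, (hout h' t c3).symm.trans b1⟩,
      ⟨r, (hout h'' r d3).symm.trans b2⟩, b3⟩, c1⟩
  · exact (c2.elim (lt_asymm d1) (lt_asymm d2)).elim
  · exact (d2.elim (lt_asymm c1) (lt_asymm c2)).elim
  obtain ⟨-, -, -, b7⟩ := triangle_of (hpair D _ h2 p hp) ⟨_, q3 h s c1 c2⟩ ⟨_, q3 h' t c3 c4⟩
    ⟨_, q3 h'' r d3 d4⟩ b3
  refine (q5 (D'.arc h s) fun k hk => ?_).elim
  rcases (b7 k).1 hk with rfl | rfl | rfl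
  · exact ⟨s, c1, c2, rfl⟩
  · exact ⟨t, c3, c4, b1⟩
  · exact ⟨r, d3, d4, b2⟩

end Pool.Agent.Lib.DH7
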