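import Mathlib
import Pool.Agent.Lib.DH7.Final

set_option autoImplicit false

open Set Function unitInterval

namespace Pool.Agent.Lib.DH7

open Pool.Agent.Lib.MP_15a8b6_co

variable {V : Type*} {G : SimpleGraph V} {S : Type*} [TopologicalSpace S]

/-- Edges that meet are adjacent and have different heads; no hypothesis on triple points. -/
theorem heads_of_cut_points [Finite V] [T2Space S] [ChartedSpace (EuclideanSpace ℝ (Fin 2)) S]
    (D : Drawing G S) (head : G.edgeSet → V) (hhead : ∀ e : G.edgeSet, head e ∈ (e : Sym2 V))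
    (h : ∀ e f : G.edgeSet, e ≠ f → D.Meet e f →
      head e ≠ head f ∧ ∃ v, v ∈ (e : Sym2 V) ∧ v ∈ (f : Sym2 V)) :
    ∃ D' : Drawing G S, ∀ e f, e ≠ f → ¬ D'.Meet e f := by
  classical
  have key : ∀ e s, D.arc e s ∉ range D.pos → s ≠ 0 ∧ s ≠ 1 := by
    intro e s hs
    obtain ⟨u, v, -, h0, h1⟩ := D.ends e
    constructor <;> rintro rfl
    · exact hs ⟨u, h0.symm⟩
    · exact hs ⟨v, h1.symm⟩
  let c : G.edgeSet → I := fun e => if D.arc e 1 = D.pos (head e) then 1 else 0
  have own : ∀ (e : G.edgeSet) (s : I) v, s ≠ 0 → v ∈ (e : Sym2 V) → head e ≠ v →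
      s ≤ c e ∧ D.pos v = D.arc e 0 ∨ c e < s ∧ D.pos v = D.arc e 1 := by
    intro e s v hs hv hne
    obtain ⟨x, y, h1, h2, h3⟩ := D.ends e
    have h4 := hhead e
    rw [h1, Sym2.mem_iff] at hv h4
    by_cases h5 : D.arc e 1 = D.pos (head e)
    · have h6 : y = head e := D.pos_inj (h3.symm.trans h5)
      refine Or.inl ⟨by simp only [c, if_pos h5]; exact s.2.2, ?_⟩
      rw [h2, hv.resolve_right fun a => hne (h6.symm.trans a.symm)]
    · have h6 : head e = x := h4.resolve_right fun a => h5 (a ▸ h3)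
      refine Or.inr ⟨by simp only [c, if_neg h5]; exact lt_of_le_of_ne s.2.1 hs.symm, ?_⟩
      rw [h3, hv.resolve_left fun a => hne (h6.trans a.symm)]
  refine cut_points head hhead _ D c c (fun _ => le_rfl) (Nat.lt_succ_self _)
    fun e f s t h1 h4 h5 => ?_
  have h6 := key e s h5
  have h7 := key f t (h4 ▸ h5)
  obtain ⟨h8, v, v1, v2⟩ := h e f h1 ⟨s, t, h6.1, h6.2, h7.1, h7.2, h4⟩
  refine ⟨v, v1, v2, ?_⟩
  by_cases h9 : head e = v
  · exact Or.inr (Or.inl (own f t v h7.1 v2 fun a => h8 (h9.trans a.symm)))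
  · exact Or.inl (own e s v h6.1 v1 h9)

end Pool.Agent.Lib.DH7
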